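import Pool.Agent.Helper326_VN.Defs

set_option autoImplicit false

/-!
The choice of the parameters of the epsilon-net theorem.
-/

namespace Pool.Agent.Helper326_VN



namespace J_anal

lemma ev (δ a : ℝ) (hδ : 0 < δ) : ∃ X0 : ℝ, ∀ x : ℝ, X0 ≤ x → x ^ a * Real.exp (-Real.log 2 * x) < δ := by
  have h := tendsto_rpow_mul_exp_neg_mul_atTop_nhds_zero a (Real.log 2) (Real.log_pos one_lt_two)
  have h2 := h.eventually (gt_mem_nhds hδ)
  obtain ⟨X0, hX⟩ := Filter.eventually_atTop.1 h2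
  exact ⟨X0, fun x hx => hX x hx⟩

end J_anal

/-- TARGET -/
theorem anal (d : ℕ) (γ : ℝ) (hγ : 1 < γ) : ∃ C : ℝ, 0 < C ∧ ∀ ρ : ℝ, 1 ≤ ρ → ∃ K L : ℕ,
    1 ≤ K ∧ 2 * (K : ℝ) * ρ ≤ ρ + L ∧
    2 * (2 * d * (2 * (K * L)) + 1) ^ ((d + 1) * d) < 2 ^ K ∧ ((K * L : ℕ) : ℝ) ≤ C * ρ ^ γ := by
  set m : ℕ := (d + 1) * d with hm
  set sg : ℝ := (γ - 1) / 2 with hsg
  have hsg0 : 0 < sg := by rw [hsg]; linarith
  set b : ℝ := 2 + 1 / sg with hb
  set A : ℝ := 13 * ((d : ℝ) + 1) with hA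
  have hA0 : 0 < A := by rw [hA]; positivity
  have hδ : 0 < 1 / (2 * A ^ m) := by positivity
  obtain ⟨X0, hX0⟩ := J_anal.ev (1 / (2 * A ^ m)) (b * m) hδ
  set c : ℝ := max 1 X0 with hc
  have hc1 : 1 ≤ c := le_max_left _ _
  have hcX : X0 ≤ c := le_max_right _ _
  refine ⟨12 * c ^ 2, by positivity, ?_⟩
  intro ρ hρ
  have hρ0 : 0 < ρ := by linarith
  have hr1 : 1 ≤ ρ ^ sg := Real.one_le_rpow hρ hsg0.le
  have hcr : 1 ≤ c * ρ ^ sg := by nlinarith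
  set K : ℕ := ⌈c * ρ ^ sg⌉₊ with hK
  set L : ℕ := ⌈2 * (K : ℝ) * ρ⌉₊ with hL
  have hKlow : c * ρ ^ sg ≤ K := Nat.le_ceil _
  have hKup : (K : ℝ) ≤ 2 * (c * ρ ^ sg) := by
    have := (Nat.ceil_lt_add_one (show 0 ≤ c * ρ ^ sg by linarith)).le
    rw [← hK] at this
    linarith
  have hK1 : (1 : ℝ) ≤ K := by linarith
  have hKN : 1 ≤ K := by exact_mod_cast hK1
  have hKc : c ≤ K := by nlinarith
  have hKρ : ρ ^ sg ≤ K := by nlinarith
  have hLlow : 2 * (K : ℝ) * ρ ≤ L := Nat.le_ceil _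
  have hLup : (L : ℝ) ≤ 3 * (K : ℝ) * ρ := by
    have := (Nat.ceil_lt_add_one (show 0 ≤ 2 * (K : ℝ) * ρ by positivity)).le
    rw [← hL] at this
    have h2 : 1 ≤ (K : ℝ) * ρ := by nlinarith
    linarith
  have hρK : ρ ≤ (K : ℝ) ^ (1 / sg) := by
    have h1 : (ρ ^ sg) ^ (1 / sg) ≤ (K : ℝ) ^ (1 / sg) :=
      Real.rpow_le_rpow (by positivity) hKρ (by positivity)
    rwa [← Real.rpow_mul hρ0.le, mul_one_div_cancel hsg0.ne', Real.rpow_one] at h1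
  refine ⟨K, L, hKN, by linarith, ?_, ?_⟩
  · have hK0 : (0 : ℝ) < K := by linarith
    have hmain : (2 : ℝ) * (2 * d * (2 * (K * L)) + 1) ^ m < 2 ^ K := by
      have h1 : (2 * d * (2 * (K * L)) + 1 : ℝ) ≤ A * (K : ℝ) ^ b := by
        have h2 : (K : ℝ) ^ b = (K : ℝ) ^ 2 * (K : ℝ) ^ (1 / sg) := by
          rw [hb, Real.rpow_add hK0]
          norm_num
        rw [h2]
        have h3 : (K : ℝ) ^ 2 * ρ ≤ (K : ℝ) ^ 2 * (K : ℝ) ^ (1 / sg) :=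
          mul_le_mul_of_nonneg_left hρK (by positivity)
        have h4 : 1 ≤ (K : ℝ) ^ 2 * ρ := by
          have : 1 ≤ (K : ℝ) ^ 2 := one_le_pow₀ hK1
          nlinarith
        have h5 : (K : ℝ) * L ≤ 3 * ((K : ℝ) ^ 2 * ρ) := by
          calc (K : ℝ) * L ≤ K * (3 * (K : ℝ) * ρ) := mul_le_mul_of_nonneg_left hLup hK0.le
            _ = 3 * ((K : ℝ) ^ 2 * ρ) := by ring
        have hd0 : (0 : ℝ) ≤ d := Nat.cast_nonneg d
        have h6 : (2 * d * (2 * (K * L)) + 1 : ℝ) ≤ A * ((K : ℝ) ^ 2 * ρ) := by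
          have h7 : (d : ℝ) * (K * L) ≤ d * (3 * ((K : ℝ) ^ 2 * ρ)) :=
            mul_le_mul_of_nonneg_left h5 hd0
          have h8 : (0 : ℝ) ≤ d * ((K : ℝ) ^ 2 * ρ) := by positivity
          rw [hA]
          nlinarith
        exact h6.trans (mul_le_mul_of_nonneg_left h3 hA0.le)
      have h9 : (2 * d * (2 * (K * L)) + 1 : ℝ) ^ m ≤ (A * (K : ℝ) ^ b) ^ m :=
        pow_le_pow_left₀ (by positivity) h1 m
      have h10 : (A * (K : ℝ) ^ b) ^ m = A ^ m * (K : ℝ) ^ (b * m) := by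
        rw [mul_pow, Real.rpow_mul hK0.le, Real.rpow_natCast]
      have h11 := hX0 K (hcX.trans hKc)
      have h12 : Real.exp (-Real.log 2 * K) = ((2 : ℝ) ^ K)⁻¹ := by
        rw [neg_mul, Real.exp_neg, ← Real.rpow_def_of_pos two_pos, Real.rpow_natCast]
      rw [h12, lt_div_iff₀ (by positivity)] at h11
      have h13 : (0 : ℝ) < 2 ^ K := by positivity
      have h14 : (K : ℝ) ^ (b * m) * (2 * A ^ m) < 2 ^ K := by
        have h15 : (K : ℝ) ^ (b * m) * ((2 : ℝ) ^ K)⁻¹ * (2 * A ^ m) =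
            ((K : ℝ) ^ (b * m) * (2 * A ^ m)) / 2 ^ K := by
          rw [div_eq_mul_inv]; ring
        rw [h15, div_lt_one h13] at h11
        exact h11
      calc (2 : ℝ) * (2 * d * (2 * (K * L)) + 1) ^ m ≤ 2 * (A ^ m * (K : ℝ) ^ (b * m)) := by
            rw [← h10]; linarith
        _ = (K : ℝ) ^ (b * m) * (2 * A ^ m) := by ring
        _ < 2 ^ K := h14
    exact_mod_cast hmain
  · have h1 : ρ ^ γ = ρ ^ sg * ρ ^ sg * ρ := by
      rw [← Real.rpow_add hρ0, ← Real.rpow_add_one hρ0.ne']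
      congr 1
      rw [hsg]; ring
    have h2 : (K : ℝ) * L ≤ 3 * ((K : ℝ) * K * ρ) := by
      calc (K : ℝ) * L ≤ K * (3 * (K : ℝ) * ρ) := mul_le_mul_of_nonneg_left hLup (by linarith)
        _ = 3 * ((K : ℝ) * K * ρ) := by ring
    have h3 : (K : ℝ) * K ≤ (2 * (c * ρ ^ sg)) * (2 * (c * ρ ^ sg)) :=
      mul_le_mul hKup hKup (by linarith) (by linarith)
    push_cast
    rw [h1]
    calc (K : ℝ) * L ≤ 3 * ((K : ℝ) * K * ρ) := h2
      _ ≤ 3 * ((2 * (c * ρ ^ sg)) * (2 * (c * ρ ^ sg)) * ρ) := by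
          have := mul_le_mul_of_nonneg_right h3 hρ0.le
          linarith
      _ = 12 * c ^ 2 * (ρ ^ sg * ρ ^ sg * ρ) := by ring

end Pool.Agent.Helper326_VN
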