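import Pool.Agent.Helper326_VN.Defs

set_option autoImplicit false

/-!
The statement of the recursion.
-/

namespace Pool.Agent.Helper326_VN

/-- the conclusion at level `k` -/
def Claim (d : ℕ) (γ : ℝ) (k : ℕ) : Prop :=
  ∃ C : ℝ, 0 < C ∧ ∀ (ι : Type) [Fintype ι] (c : ι → Fin d → ℝ)
    (M : ι → Matrix (Fin d) (Fin d) ℝ), (∀ i, (M i).det ≠ 0) →
    ∀ (z : Fin d → ℝ) (T : Finset (Fin (k + 1) → ι)) (D : ℝ), 0 < D →
    ∃ N : Finset ((Fin d → ℝ) × ι),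
      (N.card : ℝ) ≤ C * ((T.card : ℝ) * (Fintype.card ι : ℝ) ^ (d - 1 - k) / D ^ d) ^ γ ∧
      ∀ G : Finset ι, Deep k z c G D →
        (∀ τ : Fin (k + 1) → ι, (∀ j, τ j ∈ G) → Meets k z c τ → τ ∈ T) →
        ∃ n ∈ N, box n.1 (1 / (2 * (d : ℝ) ^ 3)) (M n.2) ⊆
          convexHull ℝ (⋃ i ∈ G, box (c i) 1 (M i))

end Pool.Agent.Helper326_VN
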