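import Pool.Agent.Helper326_VN.Defs

set_option autoImplicit false

/-!
The colourful theorem of Barany.
-/

namespace Pool.Agent.Helper326_VN



namespace J_colorful

open Set

section
variable {E : Type} [NormedAddCommGroup E] [InnerProductSpace ℝ E]

/-- a point of the segment from x to v which is closer to 0 than x -/
lemma closer (x v : E) (hv : inner ℝ v x < ‖x‖ ^ 2) :
    ∃ s : ℝ, 0 < s ∧ s ≤ 1 ∧ ‖x + s • (v - x)‖ < ‖x‖ := by
  set a : ℝ := ‖x‖ ^ 2 - inner ℝ v x with ha
  have hapos : 0 < a := by rw [ha]; linarith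
  set B : ℝ := ‖v - x‖ ^ 2 with hB
  have hBnn : 0 ≤ B := by positivity
  have key : ∀ s : ℝ, ‖x + s • (v - x)‖ ^ 2 = ‖x‖ ^ 2 - 2 * s * a + s ^ 2 * B := by
    intro s
    rw [norm_add_sq_real, inner_smul_right, inner_sub_right, norm_smul, real_inner_self_eq_norm_sq,
      mul_pow, real_inner_comm v x]
    rw [ha, hB]
    simp only [Real.norm_eq_abs, sq_abs]
    ring
  refine ⟨min 1 (a / (B + 1)), ?_, min_le_left _ _, ?_⟩
  · exact lt_min one_pos (by positivity)
  · have hs0 : 0 < min 1 (a / (B + 1)) := lt_min one_pos (by positivity)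
    have hs1 : min 1 (a / (B + 1)) ≤ a / (B + 1) := min_le_right _ _
    set s := min 1 (a / (B + 1)) with hs
    have h1 : s * (B + 1) ≤ a := by
      rw [le_div_iff₀ (by positivity)] at hs1
      exact hs1
    have h2 : ‖x + s • (v - x)‖ ^ 2 < ‖x‖ ^ 2 := by
      rw [key]
      nlinarith
    exact lt_of_pow_lt_pow_left₀ 2 (norm_nonneg _) h2

/-- colourful Caratheodory, in an inner product space of dimension k -/
lemma cc [FiniteDimensional ℝ E] (k : ℕ) (hk : Module.finrank ℝ E = k)
    (w : Fin (k + 1) → Fin (k + 1) → E) (h : ∀ a, (0 : E) ∈ convexHull ℝ (range (w a))) :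
    ∃ e : Fin (k + 1) → Fin (k + 1), (0 : E) ∈ convexHull ℝ (range fun a => w a (e a)) := by
  classical
  have hX : ∀ e : Fin (k + 1) → Fin (k + 1), ∃ x ∈ convexHull ℝ (range fun a => w a (e a)),
      ∀ y ∈ convexHull ℝ (range fun a => w a (e a)), ‖x‖ ≤ ‖y‖ := by
    intro e
    have hc : IsCompact (convexHull ℝ (range fun a => w a (e a))) :=
      (Set.finite_range _).isCompact_convexHull ℝ
    have hne : (convexHull ℝ (range fun a => w a (e a))).Nonempty :=
      (Set.range_nonempty _).convexHull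
    obtain ⟨x, hx, hmin⟩ := hc.exists_isMinOn hne continuous_norm.continuousOn
    exact ⟨x, hx, fun y hy => hmin hy⟩
  choose X hXm hXle using hX
  obtain ⟨e, he⟩ := Finite.exists_min (fun e => ‖X e‖)
  refine ⟨e, ?_⟩
  by_contra hcon
  have hx0 : X e ≠ 0 := by
    intro h0
    apply hcon
    have := hXm e
    rwa [h0] at this
  set x := X e with hx
  have hxpos : 0 < ‖x‖ := norm_pos_iff.mpr hx0
  have h1 : ∀ v ∈ convexHull ℝ (range fun a => w a (e a)), ‖x‖ ^ 2 ≤ inner ℝ v x := by
    intro v hv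
    by_contra hlt
    push Not at hlt
    obtain ⟨s, hs0, hs1, hs⟩ := closer x v hlt
    have hmem : x + s • (v - x) ∈ convexHull ℝ (range fun a => w a (e a)) :=
      (convex_convexHull ℝ _).add_smul_sub_mem (hXm e) hv ⟨hs0.le, hs1⟩
    exact absurd (hXle e _ hmem) (not_le.mpr hs)
  obtain ⟨ι', hι', z, c, hz, haff, hcpos, hcsum, hcx⟩ := eq_pos_convex_span_of_mem_convexHull (hXm e)
  rw [← hx] at hcx
  have hzH : ∀ i, z i ∈ convexHull ℝ (range fun a => w a (e a)) := fun i =>
    subset_convexHull ℝ _ (hz (Set.mem_range_self i))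
  have hzin : ∀ i, inner ℝ (z i) x = ‖x‖ ^ 2 := by
    have hs : ∑ i, c i * (inner ℝ (z i) x - ‖x‖ ^ 2) = 0 := by
      have h2 : ∑ i, c i * inner ℝ (z i) x = ‖x‖ ^ 2 := by
        have h3 : inner ℝ (∑ i, c i • z i) x = ∑ i, c i * inner ℝ (z i) x := by
          rw [sum_inner]
          refine Finset.sum_congr rfl fun i _ => ?_
          rw [inner_smul_left]
          simp
        rw [← h3, hcx, real_inner_self_eq_norm_sq]
      simp only [mul_sub, Finset.sum_sub_distrib, ← Finset.sum_mul, hcsum, h2]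
      ring
    have hnn : ∀ i ∈ Finset.univ, 0 ≤ c i * (inner ℝ (z i) x - ‖x‖ ^ 2) := fun i _ =>
      mul_nonneg (hcpos i).le (sub_nonneg.mpr (h1 _ (hzH i)))
    have h3 := (Finset.sum_eq_zero_iff_of_nonneg hnn).mp hs
    intro i
    have h4 := h3 i (Finset.mem_univ i)
    rcases mul_eq_zero.mp h4 with h5 | h5
    · exact absurd h5 (hcpos i).ne'
    · linarith
  have hli : LinearIndependent ℝ z := by
    rw [Fintype.linearIndependent_iff]
    intro g hg
    have hg2 : ∑ i, g i * ‖x‖ ^ 2 = 0 := by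
      have : inner ℝ (∑ i, g i • z i) x = ∑ i, g i * ‖x‖ ^ 2 := by
        rw [sum_inner]
        refine Finset.sum_congr rfl fun i _ => ?_
        rw [inner_smul_left, hzin i]
        simp
      rw [← this, hg, inner_zero_left]
    rw [← Finset.sum_mul] at hg2
    have hg3 : ∑ i, g i = 0 := by
      rcases mul_eq_zero.mp hg2 with h5 | h5
      · exact h5
      · exact absurd h5 (by positivity)
    intro i
    exact (affineIndependent_iff.mp haff) Finset.univ g hg3 hg i (Finset.mem_univ i)
  have hcard : Fintype.card ι' ≤ k := by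
    rw [← hk]
    exact hli.fintype_card_le_finrank
  have hg : ∀ i, ∃ a, w a (e a) = z i := fun i => hz (Set.mem_range_self i)
  choose g hg using hg
  obtain ⟨a0, ha0⟩ : ∃ a0, ∀ i, g i ≠ a0 := by
    by_contra hall
    push Not at hall
    have hsurj : Function.Surjective g := fun a => hall a
    have := Fintype.card_le_of_surjective g hsurj
    rw [Fintype.card_fin] at this
    omega
  obtain ⟨b, hb⟩ : ∃ b, inner ℝ (w a0 b) x ≤ 0 := by
    by_contra hall
    push Not at hall
    have hconv : Convex ℝ {y : E | 0 < inner ℝ y x} := by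
      intro y hy y' hy' s t hs ht hst
      simp only [Set.mem_ofPred_eq] at hy hy' ⊢
      rw [inner_add_left, inner_smul_left, inner_smul_left]
      simp only [conj_trivial]
      rcases hs.eq_or_lt with h0 | h0
      · have : t = 1 := by linarith
        subst this
        rw [← h0]
        simpa using hy'
      · have := mul_pos h0 hy
        have := mul_nonneg ht hy'.le
        linarith
    have hsub : convexHull ℝ (range (w a0)) ⊆ {y : E | 0 < inner ℝ y x} := by
      apply convexHull_min _ hconv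
      rintro _ ⟨b, rfl⟩
      exact hall b
    have := hsub (h a0)
    simp at this
  have hupd : ∀ i, z i = w (g i) (Function.update e a0 b (g i)) := by
    intro i
    rw [Function.update_of_ne (ha0 i), hg i]
  have hxm : x ∈ convexHull ℝ (range fun a => w a (Function.update e a0 b a)) := by
    rw [← hcx]
    apply (convex_convexHull ℝ _).sum_mem (fun i _ => (hcpos i).le) hcsum
    intro i _
    apply subset_convexHull
    exact ⟨g i, (hupd i).symm⟩
  have hwm : w a0 b ∈ convexHull ℝ (range fun a => w a (Function.update e a0 b a)) := by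
    apply subset_convexHull
    exact ⟨a0, by simp⟩
  obtain ⟨s, hs0, hs1, hs⟩ := closer x (w a0 b) (lt_of_le_of_lt hb (by positivity))
  have hmem : x + s • (w a0 b - x) ∈ convexHull ℝ (range fun a => w a (Function.update e a0 b a)) :=
    (convex_convexHull ℝ _).add_smul_sub_mem hxm hwm ⟨hs0.le, hs1⟩
  have h5 := hXle (Function.update e a0 b) _ hmem
  have h6 := he (Function.update e a0 b)
  linarith

end

/-- restriction to the first k coordinates -/
noncomputable def Lk {d : ℕ} (k : ℕ) (hk : k ≤ d) : (Fin d → ℝ) →ₗ[ℝ] EuclideanSpace ℝ (Fin k) :=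
  (WithLp.linearEquiv 2 ℝ (Fin k → ℝ)).symm.toLinearMap ∘ₗ
    LinearMap.funLeft ℝ ℝ (Fin.castLE hk)

lemma Lk_apply {d : ℕ} (k : ℕ) (hk : k ≤ d) (x : Fin d → ℝ) (j : Fin k) :
    Lk k hk x j = x (Fin.castLE hk j) := by
  simp [Lk, LinearMap.funLeft]

/-- the affine map -/
noncomputable def Ak {d : ℕ} (k : ℕ) (hk : k ≤ d) (z : Fin d → ℝ) :
    (Fin d → ℝ) →ᵃ[ℝ] EuclideanSpace ℝ (Fin k) :=
  (Lk k hk).toAffineMap - AffineMap.const ℝ _ (Lk k hk z)

lemma Ak_apply {d : ℕ} (k : ℕ) (hk : k ≤ d) (z x : Fin d → ℝ) :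
    Ak k hk z x = Lk k hk x - Lk k hk z := by
  simp [Ak]

lemma Ak_zero {d : ℕ} (k : ℕ) (hk : k ≤ d) (z x : Fin d → ℝ) :
    Ak k hk z x = 0 ↔ ∀ j : Fin d, (j : ℕ) < k → x j = z j := by
  rw [Ak_apply, sub_eq_zero]
  constructor
  · intro h j hj
    have := congrArg (fun f : EuclideanSpace ℝ (Fin k) => f ⟨j, hj⟩) h
    simp only [Lk_apply] at this
    simpa using this
  · intro h
    ext j
    rw [Lk_apply, Lk_apply]
    exact h _ (by simp)

end J_colorful

/-- TARGET -/
theorem colorful {d : ℕ} {ι : Type} (k : ℕ) (hk : k ≤ d) (z : Fin d → ℝ) (c : ι → Fin d → ℝ)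
    (τ : Fin (k + 1) → Fin (k + 1) → ι) (h : ∀ a, Meets k z c (τ a)) :
    ∃ e : Fin (k + 1) → Fin (k + 1), Meets k z c (fun a => τ a (e a)) := by
  have key : ∀ σ : Fin (k + 1) → ι, Meets k z c σ ↔
      (0 : EuclideanSpace ℝ (Fin k)) ∈
        convexHull ℝ (Set.range fun i => J_colorful.Ak k hk z (c (σ i))) := by
    intro σ
    have h1 : (Set.range fun i => J_colorful.Ak k hk z (c (σ i))) =
        (J_colorful.Ak k hk z) '' (Set.range fun i => c (σ i)) := by
      rw [← Set.range_comp]
      rfl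
    rw [h1, ← AffineMap.image_convexHull]
    constructor
    · rintro ⟨x, hx, hxz⟩
      exact ⟨x, hx, (J_colorful.Ak_zero k hk z x).mpr hxz⟩
    · rintro ⟨x, hx, hxz⟩
      exact ⟨x, hx, (J_colorful.Ak_zero k hk z x).mp hxz⟩
  obtain ⟨e, he⟩ := J_colorful.cc (E := EuclideanSpace ℝ (Fin k)) k (by simp)
    (fun a b => J_colorful.Ak k hk z (c (τ a b))) (fun a => (key (τ a)).mp (h a))
  exact ⟨e, (key _).mpr he⟩

end Pool.Agent.Helper326_VN
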