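import Pool.Agent.Helper326_VN.Defs

set_option autoImplicit false

/-!
A deep point lies in a simplex.
-/

namespace Pool.Agent.Helper326_VN



namespace J_exist

/-- restriction to the first `k` coordinates -/
def pr {d : ℕ} (k : ℕ) (hk : k ≤ d) : (Fin d → ℝ) →ₗ[ℝ] (Fin k → ℝ) :=
  LinearMap.funLeft ℝ ℝ (Fin.castLE hk)

theorem pr_apply {d : ℕ} (k : ℕ) (hk : k ≤ d) (x : Fin d → ℝ) (j : Fin k) :
    pr k hk x j = x (Fin.castLE hk j) := rfl

theorem mem_hull {d : ℕ} {ι : Type} (k : ℕ) (hk : k ≤ d) (z : Fin d → ℝ) (c : ι → Fin d → ℝ)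
    (G : Finset ι) (D : ℝ) (hD : 0 < D) (h : Deep k z c G D) :
    pr k hk z ∈ convexHull ℝ ((fun i => pr k hk (c i)) '' (G : Set ι)) := by
  classical
  by_contra hz
  have hfin : ((fun i => pr k hk (c i)) '' (G : Set ι)).Finite := G.finite_toSet.image _
  have hcl : IsClosed (convexHull ℝ ((fun i => pr k hk (c i)) '' (G : Set ι))) :=
    hfin.isClosed_convexHull ℝ
  obtain ⟨f, s, hf1, hf2⟩ := geometric_hahn_banach_closed_point (convex_convexHull ℝ _) hcl hz
  -- the vector representing f
  let u' : Fin k → ℝ := fun j => f (Pi.single j 1)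
  have hfu : ∀ y : Fin k → ℝ, f y = ∑ j, u' j * y j := by
    intro y
    have hy : y = ∑ j, y j • (Pi.single j (1 : ℝ) : Fin k → ℝ) := by
      ext i
      simp [Finset.sum_apply, Pi.single_apply]
    conv_lhs => rw [hy]
    rw [map_sum]
    refine Finset.sum_congr rfl fun j _ => ?_
    rw [map_smul, smul_eq_mul, mul_comm]
  let u : Fin d → ℝ := fun j => if hj : (j : ℕ) < k then u' ⟨j, hj⟩ else 0
  have hu0 : ∀ j : Fin d, k ≤ (j : ℕ) → u j = 0 := by
    intro j hj
    simp [u, not_lt.mpr hj]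
  have hdt : ∀ x : Fin d → ℝ, dt u x = f (pr k hk x) := by
    intro x
    rw [hfu]
    unfold dt
    have hinj : Function.Injective (Fin.castLE hk) := Fin.castLE_injective hk
    have h1 : ∑ j : Fin k, u' j * pr k hk x j
        = ∑ j ∈ Finset.univ.image (Fin.castLE hk), u j * x j := by
      rw [Finset.sum_image (fun a _ b _ hab => hinj hab)]
      refine Finset.sum_congr rfl fun j _ => ?_
      rw [pr_apply]
      congr 1
      have : ((Fin.castLE hk j : Fin d) : ℕ) < k := by simp
      simp [u]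
    rw [h1]
    symm
    refine Finset.sum_subset (Finset.subset_univ _) ?_
    intro j _ hj
    have : k ≤ (j : ℕ) := by
      by_contra hlt
      push Not at hlt
      apply hj
      rw [Finset.mem_image]
      exact ⟨⟨j, hlt⟩, Finset.mem_univ _, by ext; simp⟩
    rw [hu0 j this, zero_mul]
  have hempty : ({i | i ∈ G ∧ 0 ≤ dt u (c i - z)} : Set ι) = ∅ := by
    ext i
    simp only [Set.mem_setOf_eq, Set.mem_empty_iff_false, iff_false, not_and, not_le]
    intro hi
    rw [hdt, map_sub, map_sub]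
    have h1 := hf1 (pr k hk (c i)) (subset_convexHull ℝ _ ⟨i, hi, rfl⟩)
    linarith
  have := h u hu0
  rw [hempty, Set.ncard_empty] at this
  simp at this
  linarith

end J_exist

open J_exist in
/-- TARGET -/
theorem exist {d : ℕ} {ι : Type} (k : ℕ) (hk : k ≤ d) (z : Fin d → ℝ) (c : ι → Fin d → ℝ)
    (G : Finset ι) (D : ℝ) (hD : 0 < D) (h : Deep k z c G D) :
    ∃ τ : Fin (k + 1) → ι, (∀ j, τ j ∈ G) ∧ Meets k z c τ := by
  classical
  have hz := mem_hull k hk z c G D hD h
  obtain ⟨κ, hκ, p, w, hps, hp, hw, hw1, hsum⟩ := eq_pos_convex_span_of_mem_convexHull hz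
  -- card κ ≤ k + 1
  have hcard : Fintype.card κ ≤ k + 1 := by
    have := hp.card_le_finrank_succ
    have h2 : Module.finrank ℝ (vectorSpan ℝ (Set.range p)) ≤ Module.finrank ℝ (Fin k → ℝ) :=
      Submodule.finrank_le _
    rw [Module.finrank_fin_fun] at h2
    omega
  have hsel : ∀ a : κ, ∃ i ∈ G, pr k hk (c i) = p a := by
    intro a
    obtain ⟨i, hi, hia⟩ := hps ⟨a, rfl⟩
    exact ⟨i, hi, hia⟩
  choose g hgG hg using hsel
  have hne : Nonempty κ := by
    by_contra hne
    rw [not_nonempty_iff] at hne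
    simp at hw1
  obtain ⟨a0⟩ := hne
  -- surjection from Fin (k+1) onto κ
  obtain ⟨e⟩ : Nonempty (κ ↪ Fin (k + 1)) := by
    apply Function.Embedding.nonempty_of_card_le
    simpa using hcard
  let τ : Fin (k + 1) → ι := fun j => g (Function.extend e id (fun _ => a0) j)
  have hτe : ∀ a, τ (e a) = g a := by
    intro a
    simp only [τ]
    rw [e.injective.extend_apply]
    rfl
  refine ⟨τ, fun j => hgG _, ?_⟩
  refine ⟨∑ a, w a • c (g a), ?_, ?_⟩
  · refine (convex_convexHull ℝ _).sum_mem (fun a _ => (hw a).le) hw1 ?_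
    intro a _
    apply subset_convexHull
    exact ⟨e a, by simp only [hτe]⟩
  · intro j hj
    have h1 : pr k hk (∑ a, w a • c (g a)) = pr k hk z := by
      rw [map_sum, ← hsum]
      refine Finset.sum_congr rfl fun a _ => ?_
      rw [map_smul, hg]
    have h2 := congrFun h1 ⟨j, hj⟩
    rw [pr_apply, pr_apply] at h2
    exact h2

end Pool.Agent.Helper326_VN
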