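import Pool.Agent.Helper326_VN.Defs
import Pool.Agent.Helper326_VN.Colorful
import Pool.Agent.Helper326_VN.Exist

set_option autoImplicit false

/-!
Many simplices contain a deep point.
-/

namespace Pool.Agent.Helper326_VN



namespace J_count

open Classical in
theorem deep_sdiff {d : ℕ} {ι : Type} (k : ℕ) (z : Fin d → ℝ) (c : ι → Fin d → ℝ)
    (G R : Finset ι) (D : ℝ) (h : Deep k z c G D) :
    Deep k z c (G \ R) (D - (R.card : ℝ)) := by
  intro u hu
  have h1 := h u hu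
  have hfin : ({i | i ∈ G \ R ∧ 0 ≤ dt u (c i - z)} : Set ι).Finite :=
    (G \ R).finite_toSet.subset (fun i hi => by
      have := hi.1
      simpa using this)
  have hsub : ({i | i ∈ G ∧ 0 ≤ dt u (c i - z)} : Set ι) ⊆
      ({i | i ∈ G \ R ∧ 0 ≤ dt u (c i - z)} : Set ι) ∪ (R : Set ι) := by
    intro i hi
    by_cases hR : i ∈ R
    · right; exact_mod_cast hR
    · left
      exact ⟨Finset.mem_sdiff.2 ⟨hi.1, hR⟩, hi.2⟩
  have h2 : (({i | i ∈ G ∧ 0 ≤ dt u (c i - z)} : Set ι)).ncard ≤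
      (({i | i ∈ G \ R ∧ 0 ≤ dt u (c i - z)} : Set ι)).ncard + R.card := by
    refine (Set.ncard_le_ncard hsub (hfin.union R.finite_toSet)).trans ?_
    refine (Set.ncard_union_le _ _).trans ?_
    rw [Set.ncard_coe_finset]
  have h3 : (((({i | i ∈ G ∧ 0 ≤ dt u (c i - z)} : Set ι)).ncard : ℕ) : ℝ) ≤
      (((({i | i ∈ G \ R ∧ 0 ≤ dt u (c i - z)} : Set ι)).ncard : ℕ) : ℝ) + (R.card : ℝ) := by
    exact_mod_cast h2
  linarith

theorem many {d : ℕ} {ι : Type} (k : ℕ) (hk : k ≤ d) (z : Fin d → ℝ) (c : ι → Fin d → ℝ)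
    (G : Finset ι) (D : ℝ) (h : Deep k z c G D) (r : ℕ) :
    ((r : ℝ) - 1) * (k + 1) < D →
    ∃ τ : Fin r → (Fin (k + 1) → ι), (∀ m j, τ m j ∈ G) ∧ (∀ m, Meets k z c (τ m)) ∧
      (∀ m m', m ≠ m' → ∀ i j, τ m i ≠ τ m' j) := by
  classical
  induction r with
  | zero =>
    intro _
    exact ⟨fun m => m.elim0, fun m => m.elim0, fun m => m.elim0, fun m => m.elim0⟩
  | succ r ih =>
    intro hr
    have hk1 : (0 : ℝ) < (k : ℝ) + 1 := by positivity
    have hr' : ((r : ℝ) - 1) * (k + 1) < D := by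
      push_cast at hr
      nlinarith
    obtain ⟨τ, h1, h2, h3⟩ := ih hr'
    set R : Finset ι := Finset.univ.image (fun p : Fin r × Fin (k + 1) => τ p.1 p.2) with hR
    have hcard : R.card ≤ r * (k + 1) := by
      refine Finset.card_image_le.trans ?_
      simp
    have hcard' : (R.card : ℝ) ≤ (r : ℝ) * ((k : ℝ) + 1) := by exact_mod_cast hcard
    have hD' : 0 < D - (R.card : ℝ) := by
      push_cast at hr
      linarith
    obtain ⟨σ, hσ1, hσ2⟩ := exist k hk z c (G \ R) _ hD' (deep_sdiff k z c G R D h)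
    have hnot : ∀ m i j, σ i ≠ τ m j := by
      intro m i j he
      have := (Finset.mem_sdiff.1 (hσ1 i)).2
      apply this
      rw [hR, Finset.mem_image]
      exact ⟨(m, j), Finset.mem_univ _, he.symm⟩
    refine ⟨Fin.cons σ τ, ?_, ?_, ?_⟩
    · intro m j
      refine Fin.cases ?_ (fun m => ?_) m
      · simpa using (Finset.mem_sdiff.1 (hσ1 j)).1
      · simpa using h1 m j
    · intro m
      refine Fin.cases ?_ (fun m => ?_) m
      · simpa using hσ2
      · simpa using h2 m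
    · intro m m'
      refine Fin.cases ?_ (fun m => ?_) m
      · refine Fin.cases ?_ (fun m' => ?_) m'
        · intro hne
          exact absurd rfl hne
        · intro _ i j
          simpa using hnot m' i j
      · refine Fin.cases ?_ (fun m' => ?_) m'
        · intro _ i j
          simpa using (hnot m j i).symm
        · intro hne i j
          have hne' : m ≠ m' := fun he => hne (by rw [he])
          simpa using h3 m m' hne' i j

end J_count

/-- TARGET -/
theorem count {d : ℕ} {ι : Type} (k : ℕ) (hk : k ≤ d) (z : Fin d → ℝ) (c : ι → Fin d → ℝ)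
    (G : Finset ι) (D : ℝ) (hD : 0 < D) (h : Deep k z c G D) :
    ∃ 𝒯 : Finset (Fin (k + 1) → ι), (∀ τ ∈ 𝒯, (∀ j, τ j ∈ G) ∧ Meets k z c τ) ∧
      (D / (k + 1)) ^ (k + 1) ≤ (𝒯.card : ℝ) := by
  classical
  have hk1 : (0 : ℝ) < (k : ℝ) + 1 := by positivity
  obtain ⟨r, hr0, hr1⟩ : ∃ r : ℕ, D / ((k : ℝ) + 1) ≤ (r : ℝ) ∧ (r : ℝ) - 1 < D / ((k : ℝ) + 1) := by
    refine ⟨⌈D / ((k : ℝ) + 1)⌉₊, Nat.le_ceil _, ?_⟩
    have := Nat.ceil_lt_add_one (a := D / ((k : ℝ) + 1)) (by positivity)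
    linarith
  have hr2 : ((r : ℝ) - 1) * (k + 1) < D := by
    rwa [lt_div_iff₀ hk1] at hr1
  obtain ⟨τ, h1, h2, h3⟩ := J_count.many k hk z c G D h r hr2
  have hcol : ∀ φ : Fin (k + 1) → Fin r, ∃ e : Fin (k + 1) → Fin (k + 1),
      Meets k z c (fun a => τ (φ a) (e a)) := fun φ =>
    colorful k hk z c (fun a => τ (φ a)) (fun a => h2 (φ a))
  choose e he using hcol
  refine ⟨Finset.univ.image (fun φ : Fin (k + 1) → Fin r => fun a => τ (φ a) (e φ a)), ?_, ?_⟩
  · intro σ hσ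
    obtain ⟨φ, _, rfl⟩ := Finset.mem_image.1 hσ
    exact ⟨fun j => h1 _ _, he φ⟩
  · rw [Finset.card_image_of_injective]
    · have hc : ((Finset.univ : Finset (Fin (k + 1) → Fin r)).card : ℝ) = (r : ℝ) ^ (k + 1) := by
        simp
      rw [hc]
      exact pow_le_pow_left₀ (by positivity) hr0 _
    · intro φ ψ hφψ
      funext a
      by_contra hne
      exact h3 _ _ hne _ _ (congrFun hφψ a)

end Pool.Agent.Helper326_VN
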