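import Pool.Agent.Helper326_VN.Defs

set_option autoImplicit false

/-!
The epsilon-net theorem by double sampling.
-/

namespace Pool.Agent.Helper326_VN



namespace J_eps_net

open Finset

theorem pow_bound (t r : ℝ) (h0 : 0 ≤ r) (h1 : r ≤ t) (L : ℕ) :
    (t - r) ^ L * (t + L * r) ≤ t ^ (L + 1) := by
  induction L with
  | zero => simp
  | succ L ih =>
    have ht : 0 ≤ t := h0.trans h1
    have h2 : (t - r) * (t + ((L : ℝ) + 1) * r) ≤ t * (t + L * r) := by
      have : 0 ≤ ((L : ℝ) + 1) * r ^ 2 := by positivity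
      nlinarith
    have h3 : 0 ≤ (t - r) ^ L := pow_nonneg (by linarith) _
    calc (t - r) ^ (L + 1) * (t + ((L + 1 : ℕ) : ℝ) * r)
        = (t - r) ^ L * ((t - r) * (t + ((L : ℝ) + 1) * r)) := by push_cast; ring
      _ ≤ (t - r) ^ L * (t * (t + L * r)) := mul_le_mul_of_nonneg_left h2 h3
      _ = t * ((t - r) ^ L * (t + L * r)) := by ring
      _ ≤ t * t ^ (L + 1) := mul_le_mul_of_nonneg_left ih ht
      _ = t ^ (L + 1 + 1) := by ring

theorem count_cyl {β : Type} [Fintype β] [DecidableEq β] (K L : ℕ) (B : Finset β) (k : Fin K) :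
    (Finset.univ.filter (fun y : Fin K × Fin L → β => ∀ l, y (k, l) ∈ B)).card
      = B.card ^ L * ((Fintype.card β) ^ L) ^ (K - 1) := by
  have e : Finset.univ.filter (fun y : Fin K × Fin L → β => ∀ l, y (k, l) ∈ B)
      = Fintype.piFinset (fun q : Fin K × Fin L => if q.1 = k then B else Finset.univ) := by
    ext y
    simp only [Finset.mem_filter, Finset.mem_univ, true_and, Fintype.mem_piFinset]
    constructor
    · rintro h ⟨k', l⟩
      by_cases hk : k' = k
      · subst hk; simpa using h l
      · simp [hk]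
    · intro h l
      simpa using h (k, l)
  rw [e, Fintype.card_piFinset, Fintype.prod_prod_type]
  have h1 : ∀ k' : Fin K, (∏ l : Fin L, (if ((k', l) : Fin K × Fin L).1 = k then B
      else (Finset.univ : Finset β)).card) = if k' = k then B.card ^ L else (Fintype.card β) ^ L := by
    intro k'
    by_cases hk : k' = k
    · simp [hk]
    · simp [hk]
  rw [Finset.prod_congr rfl (fun k' _ => h1 k'), ← Finset.mul_prod_erase _ _ (Finset.mem_univ k)]
  rw [if_pos rfl]
  congr 1
  rw [Finset.prod_congr rfl (fun k' hk' => if_neg (Finset.ne_of_mem_erase hk'))]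
  simp

/-- exchange of the entries marked by `e` -/
def sw {β Q : Type} (e : Q → Bool) (z : Q → β × β) : Q → β × β :=
  fun q => if e q = true then (z q).swap else z q

theorem sw_sw {β Q : Type} (e : Q → Bool) (z : Q → β × β) : sw e (sw e z) = z := by
  funext q
  unfold sw
  split_ifs <;> simp

theorem trace_count {β : Type} (K L : ℕ) (z : Fin K × Fin L → β × β) (A : Set β)
    (S : Finset (Fin K × Fin L → Bool))
    (hS : ∀ e ∈ S, (∀ q, (sw e z q).1 ∉ A) ∧ ∀ k, ∃ l, (sw e z (k, l)).2 ∈ A) :
    S.card * 2 ^ K ≤ 2 ^ (K * L) := by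
  classical
  rcases S.eq_empty_or_nonempty with rfl | ⟨e0, he0⟩
  · simp
  obtain ⟨h01, h02⟩ := hS e0 he0
  choose l hl using h02
  have hforce : ∀ e ∈ S, ∀ k, e (k, l k) = e0 (k, l k) := by
    intro e he k
    by_contra hne
    apply (hS e he).1 (k, l k)
    have h3 := hl k
    unfold sw at h3 ⊢
    cases h1 : e (k, l k) <;> cases h2 : e0 (k, l k)
    · exact absurd (h1.trans h2.symm) hne
    · rw [h2] at h3; simpa using h3
    · rw [h2] at h3; simpa using h3
    · exact absurd (h1.trans h2.symm) hne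
  let F : (Fin K × Fin L → Bool) × (Fin K → Bool) → (Fin K × Fin L → Bool) :=
    fun p q => if q.2 = l q.1 then p.2 q.1 else p.1 q
  have hinj : Set.InjOn F ((S ×ˢ (Finset.univ : Finset (Fin K → Bool)) :
      Finset ((Fin K × Fin L → Bool) × (Fin K → Bool))) : Set _) := by
    rintro ⟨e, d⟩ h1 ⟨e', d'⟩ h2 h
    have h1' : e ∈ S := (Finset.mem_product.mp (Finset.mem_coe.mp h1)).1
    have h2' : e' ∈ S := (Finset.mem_product.mp (Finset.mem_coe.mp h2)).1
    have hd : d = d' := by
      funext k
      have := congrFun h (k, l k)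
      simpa [F] using this
    have he : e = e' := by
      funext q
      by_cases hq : q.2 = l q.1
      · have hq' : q = (q.1, l q.1) := Prod.ext rfl hq
        rw [hq', hforce e h1' q.1, hforce e' h2' q.1]
      · have := congrFun h q
        simpa [F, hq] using this
    rw [hd, he]
  have hcard := Finset.card_le_card_of_injOn F (fun p _ => Finset.mem_univ (F p)) hinj
  rw [Finset.card_product] at hcard
  simpa [Fintype.card_prod] using hcard

theorem main {α Θ : Type} (T : Finset α) (R : Θ → α → Prop) (K L P : ℕ) (a : ℝ) (ha : 0 < a)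
    (hK : 1 ≤ K) (hKL : 2 * (K : ℝ) * T.card ≤ T.card + L * a)
    (hP : ∀ X : Finset α, X ⊆ T → X.card ≤ 2 * (K * L) →
      ({A : Finset α | ∃ θ, ∀ x, x ∈ A ↔ x ∈ X ∧ R θ x}).ncard ≤ P)
    (hPK : 2 * P < 2 ^ K)
    (hno : ∀ N : Finset α, N ⊆ T → N.card ≤ K * L →
      ∃ θ, a ≤ (({x | x ∈ T ∧ R θ x} : Set α).ncard : ℝ) ∧ ∀ s ∈ N, ¬ R θ s) : False := by
  classical
  let β : Type := {x // x ∈ T}
  let Q : Type := Fin K × Fin L
  have hT : 0 < T.card := by
    obtain ⟨θ, h1, -⟩ := hno ∅ (by simp) (by simp)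
    rw [Finset.card_pos]
    by_contra hemp
    rw [Finset.not_nonempty_iff_eq_empty] at hemp
    subst hemp
    simp at h1
    linarith
  have hβ : Fintype.card β = T.card := Fintype.card_coe T
  let E : Finset (Q → β × β) := Finset.univ.filter (fun z =>
    ∃ θ, (∀ q, ¬ R θ ((z q).1 : α)) ∧ ∀ k, ∃ l, R θ ((z (k, l)).2 : α))
  -- every `z` has few switches in `E`
  have step2 : ∀ z : Q → β × β,
      (Finset.univ.filter (fun e : Q → Bool => sw e z ∈ E)).card * 2 ^ K ≤ P * 2 ^ (K * L) := by
    intro z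
    let X : Finset α := (Finset.univ.image (fun q : Q => ((z q).1 : α)))
      ∪ (Finset.univ.image (fun q : Q => ((z q).2 : α)))
    have hXT : X ⊆ T := by
      intro x hx
      rcases Finset.mem_union.mp hx with hx | hx
      · obtain ⟨q, -, rfl⟩ := Finset.mem_image.mp hx; exact (z q).1.2
      · obtain ⟨q, -, rfl⟩ := Finset.mem_image.mp hx; exact (z q).2.2
    have hQ : (Finset.univ : Finset Q).card = K * L := by simp [Q]
    have hXc : X.card ≤ 2 * (K * L) := by
      refine (Finset.card_union_le _ _).trans ?_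
      have h1 : (Finset.univ.image (fun q : Q => ((z q).1 : α))).card ≤ K * L :=
        Finset.card_image_le.trans hQ.le
      have h2 : (Finset.univ.image (fun q : Q => ((z q).2 : α))).card ≤ K * L :=
        Finset.card_image_le.trans hQ.le
      omega
    have hmemX : ∀ (e : Q → Bool) (q : Q), ((sw e z q).1 : α) ∈ X ∧ ((sw e z q).2 : α) ∈ X := by
      intro e q
      have h1 : ((z q).1 : α) ∈ X :=
        Finset.mem_union_left _ (Finset.mem_image_of_mem (fun q : Q => ((z q).1 : α)) (Finset.mem_univ q))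
      have h2 : ((z q).2 : α) ∈ X :=
        Finset.mem_union_right _ (Finset.mem_image_of_mem (fun q : Q => ((z q).2 : α)) (Finset.mem_univ q))
      unfold sw
      split_ifs
      · exact ⟨h2, h1⟩
      · exact ⟨h1, h2⟩
    let W : Set (Finset α) := {A : Finset α | ∃ θ, ∀ x, x ∈ A ↔ x ∈ X ∧ R θ x}
    have hWfin : W.Finite := by
      refine (X.powerset.finite_toSet).subset ?_
      rintro A ⟨θ, hA⟩
      rw [Finset.mem_coe, Finset.mem_powerset]
      exact fun x hx => ((hA x).mp hx).1
    have hWcard : hWfin.toFinset.card ≤ P := by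
      rw [← Set.ncard_eq_toFinset_card W hWfin]
      exact hP X hXT hXc
    let S : Finset α → Finset (Q → Bool) := fun A => Finset.univ.filter (fun e =>
      (∀ q, (sw e z q).1 ∉ {b : β | (b : α) ∈ A}) ∧ ∀ k, ∃ l, (sw e z (k, l)).2 ∈ {b : β | (b : α) ∈ A})
    have hSc : ∀ A, (S A).card * 2 ^ K ≤ 2 ^ (K * L) := fun A =>
      trace_count K L z {b : β | (b : α) ∈ A} (S A) (fun e he => (Finset.mem_filter.mp he).2)
    have hsub : (Finset.univ.filter (fun e : Q → Bool => sw e z ∈ E)) ⊆ hWfin.toFinset.biUnion S := by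
      intro e he
      have he' := (Finset.mem_filter.mp he).2
      obtain ⟨θ, h1, h2⟩ := (Finset.mem_filter.mp he').2
      refine Finset.mem_biUnion.mpr ⟨X.filter (fun x => R θ x), ?_, ?_⟩
      · rw [Set.Finite.mem_toFinset]
        exact ⟨θ, fun x => Finset.mem_filter⟩
      · refine Finset.mem_filter.mpr ⟨Finset.mem_univ _, fun q hq => ?_, fun k => ?_⟩
        · exact h1 q (Finset.mem_filter.mp hq).2
        · obtain ⟨l, hl⟩ := h2 k
          exact ⟨l, Finset.mem_filter.mpr ⟨(hmemX e (k, l)).2, hl⟩⟩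
    calc (Finset.univ.filter (fun e : Q → Bool => sw e z ∈ E)).card * 2 ^ K
        ≤ (hWfin.toFinset.biUnion S).card * 2 ^ K :=
          Nat.mul_le_mul_right _ (Finset.card_le_card hsub)
      _ ≤ (∑ A ∈ hWfin.toFinset, (S A).card) * 2 ^ K :=
          Nat.mul_le_mul_right _ Finset.card_biUnion_le
      _ = ∑ A ∈ hWfin.toFinset, (S A).card * 2 ^ K := by rw [Finset.sum_mul]
      _ ≤ ∑ _A ∈ hWfin.toFinset, 2 ^ (K * L) := Finset.sum_le_sum fun A _ => hSc A
      _ = hWfin.toFinset.card * 2 ^ (K * L) := by rw [Finset.sum_const, smul_eq_mul]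
      _ ≤ P * 2 ^ (K * L) := Nat.mul_le_mul_right _ hWcard
  -- double counting
  have step3 : 2 ^ (K * L) * E.card * 2 ^ K ≤ Fintype.card (Q → β × β) * (P * 2 ^ (K * L)) := by
    have h1 : ∑ e : Q → Bool, (Finset.univ.filter (fun z : Q → β × β => sw e z ∈ E)).card
        = 2 ^ (K * L) * E.card := by
      have h2 : ∀ e : Q → Bool,
          (Finset.univ.filter (fun z : Q → β × β => sw e z ∈ E)).card = E.card := by
        intro e
        refine Finset.card_bij (fun z _ => sw e z) (fun z hz => (Finset.mem_filter.mp hz).2) ?_ ?_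
        · intro z _ z' _ h
          have := congrArg (sw e) h
          rwa [sw_sw, sw_sw] at this
        · intro z hz
          exact ⟨sw e z, Finset.mem_filter.mpr ⟨Finset.mem_univ _, by rw [sw_sw]; exact hz⟩,
            sw_sw e z⟩
      rw [Finset.sum_congr rfl (fun e _ => h2 e)]
      simp [Q]
    have h3 : ∑ e : Q → Bool, (Finset.univ.filter (fun z : Q → β × β => sw e z ∈ E)).card
        = ∑ z : Q → β × β, (Finset.univ.filter (fun e : Q → Bool => sw e z ∈ E)).card := by
      simp only [Finset.card_filter]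
      exact Finset.sum_comm
    rw [← h1, h3, Finset.sum_mul]
    calc ∑ z : Q → β × β, (Finset.univ.filter (fun e : Q → Bool => sw e z ∈ E)).card * 2 ^ K
        ≤ ∑ _z : Q → β × β, P * 2 ^ (K * L) := Finset.sum_le_sum fun z _ => step2 z
      _ = Fintype.card (Q → β × β) * (P * 2 ^ (K * L)) := by simp
  -- `E` is large
  have step1 : Fintype.card (Q → β × β) ≤ 2 * E.card := by
    have hch : ∀ x : Q → β, ∃ θ, a ≤ (({y | y ∈ T ∧ R θ y} : Set α).ncard : ℝ) ∧
        ∀ q, ¬ R θ (x q : α) := by
      intro x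
      obtain ⟨θ, h1, h2⟩ := hno (Finset.univ.image (fun q : Q => (x q : α)))
        (by
          intro y hy
          obtain ⟨q, -, rfl⟩ := Finset.mem_image.mp hy
          exact (x q).2)
        (Finset.card_image_le.trans (by simp [Q]))
      exact ⟨θ, h1, fun q => h2 _ (Finset.mem_image_of_mem _ (Finset.mem_univ q))⟩
    choose θ hθ1 hθ2 using hch
    let B : (Q → β) → Finset β := fun x => Finset.univ.filter (fun b => ¬ R (θ x) (b : α))
    have hBr : ∀ x, ((B x).card : ℝ) ≤ T.card - a ∧ 0 ≤ ((B x).card : ℝ) := by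
      intro x
      refine ⟨?_, by positivity⟩
      have h1 : ({y | y ∈ T ∧ R (θ x) y} : Set α).ncard
          = (Finset.univ.filter (fun b : β => R (θ x) (b : α))).card := by
        have : ({y | y ∈ T ∧ R (θ x) y} : Set α)
            = (((Finset.univ.filter (fun b : β => R (θ x) (b : α))).map
              (Function.Embedding.subtype _) : Finset α) : Set α) := by
          ext y
          simp only [Set.mem_setOf_eq, Finset.coe_map, Set.mem_image, Finset.mem_coe,
            Finset.mem_filter, Finset.mem_univ, true_and, Function.Embedding.subtype_apply]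
          constructor
          · rintro ⟨h, h'⟩; exact ⟨⟨y, h⟩, h', rfl⟩
          · rintro ⟨b, hb, rfl⟩; exact ⟨b.2, hb⟩
        rw [this, Set.ncard_coe_finset, Finset.card_map]
      have h2 : (Finset.univ.filter (fun b : β => R (θ x) (b : α))).card + (B x).card = T.card := by
        rw [← hβ, ← Finset.card_univ]
        exact Finset.card_filter_add_card_filter_not _
      have h3 := hθ1 x
      rw [h1] at h3
      have h4 : ((Finset.univ.filter (fun b : β => R (θ x) (b : α))).card : ℝ) + (B x).card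
          = T.card := by exact_mod_cast h2
      linarith
    have hB : ∀ x, 2 * K * (B x).card ^ L ≤ T.card ^ L := by
      intro x
      have htpos : (0 : ℝ) < T.card := by exact_mod_cast hT
      have hb := hBr x
      have h1 := pow_bound (T.card : ℝ) (T.card - (B x).card) (by linarith [hb.1])
        (by linarith [hb.2]) L
      have h2 : (T.card : ℝ) - (T.card - (B x).card) = (B x).card := by ring
      rw [h2] at h1
      have h3 : (T.card : ℝ) + L * a ≤ T.card + L * (T.card - (B x).card) := by
        have : (L : ℝ) * a ≤ L * (T.card - (B x).card) :=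
          mul_le_mul_of_nonneg_left (by linarith [hb.1]) (by positivity)
        linarith
      have h4 : ((B x).card : ℝ) ^ L * (2 * K * T.card) ≤ (T.card : ℝ) ^ (L + 1) :=
        (mul_le_mul_of_nonneg_left (hKL.trans h3) (by positivity)).trans h1
      have h5 : (2 * K * (B x).card ^ L : ℝ) * T.card ≤ (T.card : ℝ) ^ L * T.card := by
        calc (2 * K * (B x).card ^ L : ℝ) * T.card = ((B x).card : ℝ) ^ L * (2 * K * T.card) := by ring
          _ ≤ (T.card : ℝ) ^ (L + 1) := h4
          _ = (T.card : ℝ) ^ L * T.card := by ring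
      have h6 := le_of_mul_le_mul_right h5 htpos
      exact_mod_cast h6
    -- complement
    let Ec : Finset ((Q → β) × (Q → β)) := Finset.univ.filter (fun p =>
      ∃ k, ∀ l, p.2 (k, l) ∈ B p.1)
    have hEc : 2 * Ec.card ≤ Fintype.card (Q → β) * Fintype.card (Q → β) := by
      have h1 : Ec ⊆ (Finset.univ : Finset (Q → β)).biUnion (fun x =>
          (Finset.univ : Finset (Fin K)).biUnion (fun k =>
            (Finset.univ.filter (fun y : Q → β => ∀ l, y (k, l) ∈ B x)).map
              ⟨fun y => (x, y), Prod.mk_right_injective x⟩)) := by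
        rintro ⟨x, y⟩ hp
        obtain ⟨k, hk⟩ := (Finset.mem_filter.mp hp).2
        refine Finset.mem_biUnion.mpr ⟨x, Finset.mem_univ _, Finset.mem_biUnion.mpr
          ⟨k, Finset.mem_univ _, Finset.mem_map.mpr ⟨y, Finset.mem_filter.mpr
            ⟨Finset.mem_univ _, hk⟩, rfl⟩⟩⟩
      have h2 : Ec.card ≤ ∑ x : Q → β, ∑ _k : Fin K, (B x).card ^ L * ((T.card) ^ L) ^ (K - 1) := by
        refine (Finset.card_le_card h1).trans (Finset.card_biUnion_le.trans ?_)
        refine Finset.sum_le_sum fun x _ => Finset.card_biUnion_le.trans ?_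
        refine Finset.sum_le_sum fun k _ => ?_
        rw [Finset.card_map]
        have := count_cyl K L (B x) k
        rw [hβ] at this
        exact this.le
      have h3 : ∀ x : Q → β, 2 * ∑ _k : Fin K, (B x).card ^ L * ((T.card) ^ L) ^ (K - 1)
          ≤ Fintype.card (Q → β) := by
        intro x
        have h4 : Fintype.card (Q → β) = (T.card ^ L) * (T.card ^ L) ^ (K - 1) := by
          rw [Fintype.card_fun, hβ]
          have : Fintype.card Q = L * K := by simp [Q, mul_comm]
          rw [this, pow_mul, ← pow_succ']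
          congr 1
          omega
        rw [h4, Finset.sum_const, Finset.card_univ, Fintype.card_fin, smul_eq_mul]
        calc 2 * (K * ((B x).card ^ L * (T.card ^ L) ^ (K - 1)))
            = (2 * K * (B x).card ^ L) * (T.card ^ L) ^ (K - 1) := by ring
          _ ≤ T.card ^ L * (T.card ^ L) ^ (K - 1) := Nat.mul_le_mul_right _ (hB x)
      calc 2 * Ec.card ≤ 2 * ∑ x : Q → β, ∑ _k : Fin K, (B x).card ^ L * ((T.card) ^ L) ^ (K - 1) :=
            Nat.mul_le_mul_left _ h2
        _ = ∑ x : Q → β, 2 * ∑ _k : Fin K, (B x).card ^ L * ((T.card) ^ L) ^ (K - 1) := by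
            rw [Finset.mul_sum]
        _ ≤ ∑ _x : Q → β, Fintype.card (Q → β) := Finset.sum_le_sum fun x _ => h3 x
        _ = Fintype.card (Q → β) * Fintype.card (Q → β) := by simp
    -- transfer
    have hle : Fintype.card (Q → β) * Fintype.card (Q → β) - Ec.card ≤ E.card := by
      have h1 : (Finset.univ \ Ec).card ≤ E.card := by
        refine Finset.card_le_card_of_injOn (fun p q => (p.1 q, p.2 q)) ?_ ?_
        · rintro ⟨x, y⟩ hp
          have hp' : (x, y) ∉ Ec := (Finset.mem_sdiff.mp (Finset.mem_coe.mp hp)).2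
          refine Finset.mem_coe.mpr (Finset.mem_filter.mpr ⟨Finset.mem_univ _, θ x, hθ2 x, fun k => ?_⟩)
          by_contra hcon
          push Not at hcon
          apply hp'
          exact Finset.mem_filter.mpr ⟨Finset.mem_univ _, k, fun l =>
            Finset.mem_filter.mpr ⟨Finset.mem_univ _, hcon l⟩⟩
        · rintro ⟨x, y⟩ _ ⟨x', y'⟩ _ h
          have h2 : ∀ q, x q = x' q ∧ y q = y' q := fun q => by
            have := congrFun h q
            simpa using this
          exact Prod.ext (funext fun q => (h2 q).1) (funext fun q => (h2 q).2)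
      rw [Finset.card_sdiff_of_subset (Finset.subset_univ _), Finset.card_univ,
        Fintype.card_prod] at h1
      exact h1
    have hcard : Fintype.card (Q → β × β) = Fintype.card (Q → β) * Fintype.card (Q → β) := by
      rw [← Fintype.card_prod]
      exact Fintype.card_congr (Equiv.arrowProdEquivProdArrow Q (fun _ => β) (fun _ => β))
    rw [hcard]
    omega
  have hpos : 0 < Fintype.card (Q → β × β) := by
    rw [Fintype.card_fun, Fintype.card_prod, hβ]
    positivity
  have h4 : Fintype.card (Q → β × β) * (2 ^ (K * L) * 2 ^ K)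
      ≤ Fintype.card (Q → β × β) * (2 ^ (K * L) * (2 * P)) := by
    calc Fintype.card (Q → β × β) * (2 ^ (K * L) * 2 ^ K)
        ≤ (2 * E.card) * (2 ^ (K * L) * 2 ^ K) := Nat.mul_le_mul_right _ step1
      _ = 2 * (2 ^ (K * L) * E.card * 2 ^ K) := by ring
      _ ≤ 2 * (Fintype.card (Q → β × β) * (P * 2 ^ (K * L))) := Nat.mul_le_mul_left _ step3
      _ = Fintype.card (Q → β × β) * (2 ^ (K * L) * (2 * P)) := by ring
  have h5 := Nat.le_of_mul_le_mul_left h4 hpos
  have h6 := Nat.le_of_mul_le_mul_left h5 (by positivity)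
  omega

end J_eps_net

/-- TARGET -/
theorem eps_net {α Θ : Type} (T : Finset α) (R : Θ → α → Prop) (K L P : ℕ) (a : ℝ) (ha : 0 < a)
    (hK : 1 ≤ K) (hKL : 2 * (K : ℝ) * T.card ≤ T.card + L * a)
    (hP : ∀ X : Finset α, X ⊆ T → X.card ≤ 2 * (K * L) →
      ({A : Finset α | ∃ θ, ∀ x, x ∈ A ↔ x ∈ X ∧ R θ x}).ncard ≤ P)
    (hPK : 2 * P < 2 ^ K) :
    ∃ N : Finset α, N ⊆ T ∧ N.card ≤ K * L ∧
      ∀ θ, a ≤ (({x | x ∈ T ∧ R θ x} : Set α).ncard : ℝ) → ∃ s ∈ N, R θ s := by
  by_contra hcon
  refine J_eps_net.main T R K L P a ha hK hKL hP hPK fun N hN hNc => ?_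
  by_contra hc
  apply hcon
  refine ⟨N, hN, hNc, fun θ hθ => ?_⟩
  by_contra h
  apply hc
  refine ⟨θ, hθ, fun s hs hR => h ⟨s, hs, hR⟩⟩

end Pool.Agent.Helper326_VN
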