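import Pool.Agent.Helper326_VN.Defs

set_option autoImplicit false

/-!
The frame of maximal determinant.
-/

namespace Pool.Agent.Helper326_VN


namespace J_maxdet

/-- the matrix with given columns -/
noncomputable def Wf {d : ℕ} {α : Type} (A : Finset α) (M : α → Matrix (Fin d) (Fin d) ℝ)
    (f : Fin d → {τ // τ ∈ A} × Fin d) : Matrix (Fin d) (Fin d) ℝ :=
  Matrix.of fun j a => M (f a).1 j (f a).2

theorem sum_mem_of_abs {d : ℕ} {C : Set (Fin d → ℝ)} (hC : Convex ℝ C) (h0 : (0 : Fin d → ℝ) ∈ C)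
    (w : Fin d → Fin d → ℝ) (hw : ∀ a, w a ∈ C) (hw' : ∀ a, -w a ∈ C) (s : Fin d → ℝ)
    (hs : ∑ a, |s a| ≤ 1) : ∑ a, s a • w a ∈ C := by
  classical
  have h := hC.sum_mem (t := (Finset.univ : Finset (Option (Fin d))))
    (w := fun o => o.elim (1 - ∑ a, |s a|) (fun a => |s a|))
    (z := fun o => o.elim 0 (fun a => if 0 ≤ s a then w a else -w a))
    (by
      intro o _
      rcases o with _ | a
      · simp only [Option.elim]; linarith
      · simp only [Option.elim]; exact abs_nonneg _)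
    (by rw [Fintype.sum_option]; simp)
    (by
      intro o _
      rcases o with _ | a
      · exact h0
      · simp only [Option.elim]
        split_ifs
        · exact hw a
        · exact hw' a)
  rw [Fintype.sum_option] at h
  simp only [Option.elim, smul_zero, zero_add] at h
  have e : ∑ a, s a • w a = ∑ a, |s a| • (if 0 ≤ s a then w a else -w a) := by
    refine Finset.sum_congr rfl fun a _ => ?_
    split_ifs with h1
    · rw [abs_of_nonneg h1]
    · push Not at h1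
      rw [abs_of_neg h1, smul_neg, neg_smul, neg_neg]
  rw [e]
  exact h

end J_maxdet

/-- TARGET -/
theorem maxdet (d : ℕ) {α : Type} (A : Finset α) (hA : A.Nonempty)
    (M : α → Matrix (Fin d) (Fin d) ℝ) (hM : ∀ τ ∈ A, (M τ).det ≠ 0) :
    ∃ θ : Fin d → Fin d → ℝ,
      (∀ τ ∈ A, ∀ a b, |dt (θ a) (fun j => M τ j b)| ≤ 1) ∧
      ∀ Q : Matrix (Fin d) (Fin d) ℝ, (∀ a b, |dt (θ a) (fun j => Q j b)| ≤ 1) →
        box 0 (1 / (d : ℝ) ^ 2) Q ⊆ convexHull ℝ (⋃ τ ∈ A, box 0 1 (M τ)) := by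
  classical
  obtain ⟨τ₀, hτ₀⟩ := hA
  have : Nonempty (Fin d → {τ // τ ∈ A} × Fin d) := ⟨fun b => (⟨τ₀, hτ₀⟩, b)⟩
  obtain ⟨f₀, hf₀⟩ := Finite.exists_max fun f : Fin d → {τ // τ ∈ A} × Fin d =>
    |(J_maxdet.Wf A M f).det|
  set W := J_maxdet.Wf A M f₀ with hW
  have hdet : 0 < |W.det| := by
    have h1 := hf₀ (fun b => (⟨τ₀, hτ₀⟩, b))
    have h2 : J_maxdet.Wf A M (fun b => (⟨τ₀, hτ₀⟩, b)) = M τ₀ := rfl
    rw [h2] at h1
    exact lt_of_lt_of_le (abs_pos.2 (hM τ₀ hτ₀)) h1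
  have hdet0 : W.det ≠ 0 := abs_pos.1 hdet
  have hunit : IsUnit W.det := isUnit_iff_ne_zero.2 hdet0
  have hdt : ∀ (a : Fin d) (v : Fin d → ℝ), dt (W⁻¹ a) v = (W⁻¹.mulVec v) a := fun a v => rfl
  refine ⟨fun a => W⁻¹ a, ?_, ?_⟩
  · intro τ hτ a b
    rw [hdt]
    have h1 : (W⁻¹.mulVec (fun j => M τ j b)) a =
        (W.det)⁻¹ * (W.updateCol a (fun j => M τ j b)).det := by
      rw [Matrix.inv_def, Ring.inverse_eq_inv', Matrix.smul_mulVec, ← Matrix.cramer_eq_adjugate_mulVec,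
        Pi.smul_apply, Matrix.cramer_apply, smul_eq_mul]
    have h2 : W.updateCol a (fun j => M τ j b) =
        J_maxdet.Wf A M (Function.update f₀ a (⟨τ, hτ⟩, b)) := by
      ext j c
      by_cases hc : c = a
      · subst hc
        simp [J_maxdet.Wf]
      · rw [Matrix.updateCol_ne hc]
        simp [hW, J_maxdet.Wf, Function.update_of_ne hc]
    rw [h1, h2, abs_mul, abs_inv, inv_mul_le_iff₀ hdet, mul_one]
    exact hf₀ _
  · intro Q hQ
    rintro p ⟨t, ht, rfl⟩
    set s : Fin d → ℝ := fun a => (1 / (d : ℝ) ^ 2) * ((W⁻¹ * Q).mulVec t) a with hs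
    have hp : (0 : Fin d → ℝ) + (1 / (d : ℝ) ^ 2) • Q.mulVec t = ∑ a, s a • (fun j => W j a) := by
      have h1 : W.mulVec ((W⁻¹ * Q).mulVec t) = Q.mulVec t := by
        rw [Matrix.mulVec_mulVec, ← Matrix.mul_assoc, Matrix.mul_nonsing_inv W hunit, Matrix.one_mul]
      rw [zero_add, ← h1]
      funext j
      rw [Finset.sum_apply, Pi.smul_apply, Matrix.mulVec, dotProduct, smul_eq_mul, Finset.mul_sum]
      refine Finset.sum_congr rfl fun a _ => ?_
      rw [Pi.smul_apply, smul_eq_mul, hs]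
      ring
    have hsb : ∀ a, |s a| ≤ 1 / (d : ℝ) := by
      intro a
      have hd : 0 < (d : ℝ) := by exact_mod_cast Fin.pos a
      rw [hs]
      simp only
      rw [abs_mul, abs_of_nonneg (by positivity)]
      have h2 : |((W⁻¹ * Q).mulVec t) a| ≤ d := by
        rw [Matrix.mulVec, dotProduct]
        calc |∑ b, (W⁻¹ * Q) a b * t b| ≤ ∑ b, |(W⁻¹ * Q) a b * t b| :=
              Finset.abs_sum_le_sum_abs _ _
          _ ≤ ∑ _b : Fin d, (1 : ℝ) := by
              refine Finset.sum_le_sum fun b _ => ?_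
              rw [abs_mul]
              have h3 : |(W⁻¹ * Q) a b| ≤ 1 := hQ a b
              have h4 := ht b
              have h5 := abs_nonneg (t b)
              have h6 := abs_nonneg ((W⁻¹ * Q) a b)
              nlinarith
          _ = d := by simp
      calc 1 / (d : ℝ) ^ 2 * |((W⁻¹ * Q).mulVec t) a| ≤ 1 / (d : ℝ) ^ 2 * d := by gcongr
        _ = 1 / (d : ℝ) := by field_simp
    have hsum : ∑ a, |s a| ≤ 1 := by
      rcases Nat.eq_zero_or_pos d with hd | hd
      · subst hd; simp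
      · have hd' : 0 < (d : ℝ) := by exact_mod_cast hd
        calc ∑ a, |s a| ≤ ∑ _a : Fin d, 1 / (d : ℝ) := Finset.sum_le_sum fun a _ => hsb a
          _ = 1 := by simp; field_simp
    rw [hp]
    have hmem : ∀ (τ : α), τ ∈ A → ∀ q ∈ box (0 : Fin d → ℝ) 1 (M τ),
        q ∈ convexHull ℝ (⋃ τ ∈ A, box (0 : Fin d → ℝ) 1 (M τ)) := by
      intro τ hτ q hq
      refine subset_convexHull ℝ _ ?_
      simp only [Set.mem_iUnion]
      exact ⟨τ, hτ, hq⟩
    have hcol : ∀ (τ : α) (b : Fin d) (e : ℝ), |e| ≤ 1 →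
        e • (fun j => M τ j b) ∈ box (0 : Fin d → ℝ) 1 (M τ) := by
      intro τ b e he
      refine ⟨Pi.single b e, ?_, ?_⟩
      · intro j
        by_cases hj : j = b
        · subst hj; simpa using he
        · simp [Pi.single_eq_of_ne hj]
      · rw [zero_add, one_smul]
        funext j
        simp [Matrix.mulVec, dotProduct, Pi.single_apply, mul_comm]
    refine J_maxdet.sum_mem_of_abs (convex_convexHull ℝ _) ?_ (fun a j => W j a) ?_ ?_ s hsum
    · refine hmem τ₀ hτ₀ 0 ⟨0, by simp, by simp⟩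
    · intro a
      have h1 := hcol (f₀ a).1 (f₀ a).2 1 (by simp)
      rw [one_smul] at h1
      exact hmem _ (f₀ a).1.2 _ h1
    · intro a
      have h1 := hcol (f₀ a).1 (f₀ a).2 (-1) (by simp)
      rw [neg_one_smul] at h1
      exact hmem _ (f₀ a).1.2 _ h1

end Pool.Agent.Helper326_VN
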