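import Pool.Agent.Helper326_VN.Defs

set_option autoImplicit false

/-!
Traces of half spaces on a finite set of vectors.
-/

namespace Pool.Agent.Helper326_VN


namespace J_half

/-- sum bound -/
theorem sum_choose_le (N m : ℕ) : ∑ k ∈ Finset.Iic m, N.choose k ≤ (N + 1) ^ m := by
  have h : ∀ m : ℕ, ∑ k ∈ Finset.range (m + 1), N.choose k ≤ (N + 1) ^ m := by
    intro m
    induction m with
    | zero => simp
    | succ m ih =>
      rw [Finset.sum_range_succ]
      have h2 : N.choose (m + 1) ≤ N * N ^ m := by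
        calc N.choose (m + 1) ≤ N ^ (m + 1) := Nat.choose_le_pow N (m + 1)
          _ = N * N ^ m := by ring
      have h3 : N ^ m ≤ (N + 1) ^ m := Nat.pow_le_pow_left (Nat.le_succ N) m
      calc ∑ k ∈ Finset.range (m + 1), N.choose k + N.choose (m + 1)
          ≤ (N + 1) ^ m + N * (N + 1) ^ m := Nat.add_le_add ih (h2.trans (Nat.mul_le_mul_left N h3))
        _ = (N + 1) ^ (m + 1) := by ring
  have e : Finset.Iic m = Finset.range (m + 1) := by
    ext x
    simp [Nat.lt_succ_iff]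
  rw [e]
  exact h m

theorem dt_add {d : ℕ} (u x y : Fin d → ℝ) : dt u (x + y) = dt u x + dt u y := by
  unfold dt
  rw [← Finset.sum_add_distrib]
  exact Finset.sum_congr rfl (fun j _ => by simp [mul_add])

theorem dt_smul {d : ℕ} (u x : Fin d → ℝ) (a : ℝ) : dt u (a • x) = a * dt u x := by
  unfold dt
  rw [Finset.mul_sum]
  exact Finset.sum_congr rfl (fun j _ => by simp; ring)

theorem convex_le {d : ℕ} (u : Fin d → ℝ) : Convex ℝ {y : Fin d → ℝ | dt u y ≤ 1} := by
  intro x hx y hy a b ha hb hab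
  simp only [Set.mem_setOf_eq] at *
  rw [dt_add, dt_smul, dt_smul]
  nlinarith

theorem convex_gt {d : ℕ} (u : Fin d → ℝ) : Convex ℝ {y : Fin d → ℝ | 1 < dt u y} := by
  intro x hx y hy a b ha hb hab
  simp only [Set.mem_setOf_eq] at *
  rw [dt_add, dt_smul, dt_smul]
  rcases ha.eq_or_lt with h | h
  · subst h
    have : b = 1 := by linarith
    subst this
    linarith
  · nlinarith

/-- a shattered set has at most `d + 1` elements -/
theorem card_le {d : ℕ} {β : Type} [DecidableEq β] (v : β → Fin d → ℝ)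
    (F : Finset (Finset β)) (hF : ∀ A ∈ F, ∃ u : Fin d → ℝ, ∀ x, x ∈ A ↔ dt u (v x) ≤ 1)
    (s : Finset β) (hs : F.Shatters s) : s.card ≤ d + 1 := by
  by_contra hc
  push Not at hc
  have hna : ¬ AffineIndependent ℝ (fun x : s => v x) := by
    intro h
    have h1 := h.card_le_finrank_succ
    have h2 : Module.finrank ℝ (vectorSpan ℝ (Set.range fun x : s => v x)) ≤ d := by
      refine (Submodule.finrank_le _).trans ?_
      simp
    rw [Fintype.card_coe] at h1
    omega
  obtain ⟨I, p, hp1, hp2⟩ := Convex.radon_partition hna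
  classical
  let t : Finset β := s.attach.filter (fun x => x ∈ I) |>.map ⟨Subtype.val, Subtype.val_injective⟩
  have ht : t ⊆ s := by
    intro x hx
    simp only [t, Finset.mem_map, Finset.mem_filter, Function.Embedding.coeFn_mk] at hx
    obtain ⟨y, _, rfl⟩ := hx
    exact y.2
  obtain ⟨A, hA, hsA⟩ := hs ht
  obtain ⟨u, hu⟩ := hF A hA
  have key : ∀ x : s, x ∈ I ↔ dt u (v x) ≤ 1 := by
    intro x
    rw [← hu]
    have e1 : x.1 ∈ s ∩ A ↔ x.1 ∈ t := by rw [hsA]
    have e2 : x.1 ∈ t ↔ x ∈ I := by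
      simp only [t, Finset.mem_map, Finset.mem_filter, Function.Embedding.coeFn_mk]
      constructor
      · rintro ⟨y, ⟨_, hy⟩, hyx⟩
        have : y = x := Subtype.ext hyx
        exact this ▸ hy
      · intro hx
        exact ⟨x, ⟨Finset.mem_attach _ _, hx⟩, rfl⟩
    rw [← e2, ← e1, Finset.mem_inter]
    exact ⟨fun h => h.2, fun h => ⟨x.2, h⟩⟩
  have m1 : p ∈ {y : Fin d → ℝ | dt u y ≤ 1} := by
    refine (convexHull_min ?_ (convex_le u)) hp1
    rintro _ ⟨x, hx, rfl⟩
    exact (key x).1 hx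
  have m2 : p ∈ {y : Fin d → ℝ | 1 < dt u y} := by
    refine (convexHull_min ?_ (convex_gt u)) hp2
    rintro _ ⟨x, hx, rfl⟩
    exact not_le.1 (fun h => hx ((key x).2 h))
  simp only [Set.mem_setOf_eq] at m1 m2
  linarith

end J_half

/-- TARGET -/
theorem half (d : ℕ) {β : Type} [Fintype β] (v : β → Fin d → ℝ) :
    ({A : Finset β | ∃ u : Fin d → ℝ, ∀ x, x ∈ A ↔ dt u (v x) ≤ 1}).ncard ≤
      (Fintype.card β + 1) ^ (d + 1) := by
  classical
  set F : Finset (Finset β) :=
    Finset.univ.filter (fun A : Finset β => ∃ u : Fin d → ℝ, ∀ x, x ∈ A ↔ dt u (v x) ≤ 1) with hFdef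
  have hset : {A : Finset β | ∃ u : Fin d → ℝ, ∀ x, x ∈ A ↔ dt u (v x) ≤ 1} = (F : Set (Finset β)) := by
    ext A
    simp [hFdef]
  rw [hset, Set.ncard_coe_finset]
  have hF : ∀ A ∈ F, ∃ u : Fin d → ℝ, ∀ x, x ∈ A ↔ dt u (v x) ≤ 1 := by
    intro A hA
    exact (Finset.mem_filter.1 hA).2
  have hv : F.vcDim ≤ d + 1 := by
    unfold Finset.vcDim
    refine Finset.sup_le ?_
    intro s hs
    exact J_half.card_le v F hF s (Finset.mem_shatterer.1 hs)
  calc F.card ≤ F.shatterer.card := Finset.card_le_card_shatterer F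
    _ ≤ ∑ k ∈ Finset.Iic F.vcDim, (Fintype.card β).choose k := Finset.card_shatterer_le_sum_vcDim
    _ ≤ ∑ k ∈ Finset.Iic (d + 1), (Fintype.card β).choose k := by
        refine Finset.sum_le_sum_of_subset ?_
        exact Finset.Iic_subset_Iic.2 hv
    _ ≤ (Fintype.card β + 1) ^ (d + 1) := J_half.sum_choose_le _ _

end Pool.Agent.Helper326_VN
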