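import Pool.Agent.Helper326_VN.Defs
import Pool.Agent.Helper326_VN.Half

set_option autoImplicit false

/-!
Traces of the frame conditions on a finite set.
-/

namespace Pool.Agent.Helper326_VN



/-- TARGET -/
theorem traces (d : ℕ) {α : Type} (M : α → Matrix (Fin d) (Fin d) ℝ) (X : Finset α) :
    ({A : Finset α | ∃ θ : Fin d → Fin d → ℝ,
      ∀ x, x ∈ A ↔ x ∈ X ∧ ∀ a b, |dt (θ a) (fun j => M x j b)| ≤ 1}).ncard ≤
      (2 * d * X.card + 1) ^ ((d + 1) * d) := by
  classical
  obtain ⟨v, hv⟩ : ∃ v : (X × Fin d × Bool) → Fin d → ℝ, v = fun y j =>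
    if y.2.2 then - M y.1 j y.2.1 else M y.1 j y.2.1 := ⟨_, rfl⟩
  have hvf : ∀ (x : X) (b : Fin d) (u : Fin d → ℝ),
      dt u (v (x, b, false)) = dt u (fun j => M x j b) := by
    intro x b u
    rw [hv]
    simp [dt]
  have hvt : ∀ (x : X) (b : Fin d) (u : Fin d → ℝ),
      dt u (v (x, b, true)) = - dt u (fun j => M x j b) := by
    intro x b u
    rw [hv]
    simp [dt]
  obtain ⟨FF, hFF⟩ : ∃ FF : Set (Finset (X × Fin d × Bool)), FF =
    {A | ∃ u : Fin d → ℝ, ∀ y, y ∈ A ↔ dt u (v y) ≤ 1} := ⟨_, rfl⟩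
  have hFc : FF.ncard ≤ (2 * d * X.card + 1) ^ (d + 1) := by
    have h1 := half d v
    rw [← hFF] at h1
    have h2 : Fintype.card (X × Fin d × Bool) = 2 * d * X.card := by
      rw [Fintype.card_prod, Fintype.card_prod, Fintype.card_coe, Fintype.card_fin,
        Fintype.card_bool]
      ring
    rwa [h2] at h1
  have hfin : FF.Finite := Set.toFinite FF
  obtain ⟨Φ, hΦ⟩ : ∃ Φ : (Fin d → Finset (X × Fin d × Bool)) → Finset α, Φ = fun H =>
    (X.attach.filter (fun x => ∀ a b s, (x, b, s) ∈ H a)).map (Function.Embedding.subtype _) :=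
    ⟨_, rfl⟩
  have hsub : {A : Finset α | ∃ θ : Fin d → Fin d → ℝ,
      ∀ x, x ∈ A ↔ x ∈ X ∧ ∀ a b, |dt (θ a) (fun j => M x j b)| ≤ 1} ⊆
      (((Fintype.piFinset (fun _ : Fin d => hfin.toFinset)).image Φ : Finset (Finset α)) :
        Set (Finset α)) := by
    rintro A ⟨θ, hθ⟩
    rw [Finset.coe_image, Set.mem_image]
    refine ⟨fun a => Finset.univ.filter (fun y => dt (θ a) (v y) ≤ 1), ?_, ?_⟩
    · rw [Finset.mem_coe, Fintype.mem_piFinset]
      intro a
      rw [Set.Finite.mem_toFinset, hFF]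
      refine ⟨θ a, fun y => ?_⟩
      simp
    · rw [hΦ]
      ext x
      simp only [Finset.mem_map, Finset.mem_filter, Finset.mem_attach, true_and,
        Finset.mem_univ, Function.Embedding.subtype_apply]
      rw [hθ]
      constructor
      · rintro ⟨y, hy, rfl⟩
        refine ⟨y.2, fun a b => ?_⟩
        have h1 := hy a b false
        have h2 := hy a b true
        rw [hvf] at h1
        rw [hvt] at h2
        rw [abs_le]
        exact ⟨by linarith, h1⟩
      · rintro ⟨hx, h1⟩
        refine ⟨⟨x, hx⟩, ?_, rfl⟩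
        intro a b s
        have h2 := abs_le.1 (h1 a b)
        cases s
        · rw [hvf]
          exact h2.2
        · rw [hvt]
          show - dt (θ a) (fun j => M x j b) ≤ 1
          linarith [h2.1]
  refine (Set.ncard_le_ncard hsub (Finset.finite_toSet _)).trans ?_
  rw [Set.ncard_coe_finset]
  refine Finset.card_image_le.trans ?_
  rw [Fintype.card_piFinset, Finset.prod_const, Finset.card_univ, Fintype.card_fin, pow_mul]
  refine Nat.pow_le_pow_left ?_ d
  rw [← Set.ncard_eq_toFinset_card FF hfin]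
  exact hFc

end Pool.Agent.Helper326_VN
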