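import Pool.Agent.Helper326_VN.Defs
import Pool.Agent.Helper326_VN.Traces
import Pool.Agent.Helper326_VN.EpsNet
import Pool.Agent.Helper326_VN.Anal
import Pool.Agent.Helper326_VN.MaxDet

set_option autoImplicit false

/-!
Concentric nets of almost linear size.
-/

namespace Pool.Agent.Helper326_VN



/-- TARGET -/
theorem conc (d : ℕ) (γ : ℝ) (hγ : 1 < γ) : ∃ C : ℝ, 0 < C ∧
    ∀ (α : Type) (T : Finset α) (M : α → Matrix (Fin d) (Fin d) ℝ),
      (∀ τ ∈ T, (M τ).det ≠ 0) → ∀ a : ℝ, 0 < a →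
      ∃ N : Finset α, N ⊆ T ∧ (N.card : ℝ) ≤ C * ((T.card : ℝ) / a) ^ γ ∧
        ∀ A : Finset α, A ⊆ T → a ≤ A.card →
          ∃ s ∈ N, box 0 (1 / (d : ℝ) ^ 2) (M s) ⊆ convexHull ℝ (⋃ τ ∈ A, box 0 1 (M τ)) := by
  classical
  obtain ⟨C, hC, hana⟩ := anal d γ hγ
  refine ⟨C, hC, ?_⟩
  intro α T M hM a ha
  by_cases hTa : (T.card : ℝ) < a
  · refine ⟨∅, Finset.empty_subset _, ?_, ?_⟩
    · simp only [Finset.card_empty, Nat.cast_zero]
      positivity
    · intro A hAT hA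
      exfalso
      have h1 : (A.card : ℝ) ≤ T.card := by exact_mod_cast Finset.card_le_card hAT
      linarith
  push Not at hTa
  have hρ : 1 ≤ (T.card : ℝ) / a := by
    rw [le_div_iff₀ ha]
    linarith
  obtain ⟨K, L, hK, hKL, hP, hN⟩ := hana _ hρ
  have hKL' : 2 * (K : ℝ) * T.card ≤ T.card + L * a := by
    have h := mul_le_mul_of_nonneg_right hKL ha.le
    have e1 : 2 * (K : ℝ) * ((T.card : ℝ) / a) * a = 2 * K * T.card := by field_simp
    have e2 : ((T.card : ℝ) / a + L) * a = T.card + L * a := by field_simp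
    rw [e1, e2] at h
    exact h
  have hPP : ∀ X : Finset α, X ⊆ T → X.card ≤ 2 * (K * L) →
      ({A : Finset α | ∃ θ : Fin d → Fin d → ℝ,
        ∀ x, x ∈ A ↔ x ∈ X ∧ ∀ a b, |dt (θ a) (fun j => M x j b)| ≤ 1}).ncard ≤
        (2 * d * (2 * (K * L)) + 1) ^ ((d + 1) * d) := by
    intro X _ hX
    refine (traces d M X).trans ?_
    refine Nat.pow_le_pow_left ?_ _
    exact Nat.succ_le_succ (Nat.mul_le_mul_left _ hX)
  obtain ⟨N, hNT, hNc, hNn⟩ := eps_net T
    (fun (θ : Fin d → Fin d → ℝ) x => ∀ a b, |dt (θ a) (fun j => M x j b)| ≤ 1) K L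
    ((2 * d * (2 * (K * L)) + 1) ^ ((d + 1) * d)) a ha hK hKL' hPP hP
  refine ⟨N, hNT, ?_, ?_⟩
  · refine le_trans ?_ hN
    exact_mod_cast hNc
  · intro A hAT hA
    have hAne : A.Nonempty := by
      rw [Finset.nonempty_iff_ne_empty]
      rintro rfl
      simp only [Finset.card_empty, Nat.cast_zero] at hA
      linarith
    obtain ⟨θ, hθ1, hθ2⟩ := maxdet d A hAne M fun τ hτ => hM τ (hAT hτ)
    have hle : a ≤ (({x | x ∈ T ∧ ∀ a b, |dt (θ a) (fun j => M x j b)| ≤ 1} :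
        Set α).ncard : ℝ) := by
      refine hA.trans ?_
      have h1 : (A : Set α) ⊆ {x | x ∈ T ∧ ∀ a b, |dt (θ a) (fun j => M x j b)| ≤ 1} := by
        intro x hx
        exact ⟨hAT hx, hθ1 x hx⟩
      have hfin : ({x | x ∈ T ∧ ∀ a b, |dt (θ a) (fun j => M x j b)| ≤ 1} : Set α).Finite :=
        (Finset.finite_toSet T).subset fun x hx => hx.1
      have h2 := Set.ncard_le_ncard h1 hfin
      rw [Set.ncard_coe_finset] at h2
      exact_mod_cast h2
    obtain ⟨s, hs, hsR⟩ := hNn θ hle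
    exact ⟨s, hs, hθ2 (M s) hsR⟩

end Pool.Agent.Helper326_VN
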