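import Pool.Agent.Helper326_VN.Defs
import Pool.Agent.Helper326_VN.Conc

set_option autoImplicit false

/-!
Nets for parallelotopes with centres on a line.
-/

namespace Pool.Agent.Helper326_VN



namespace J_line

open Classical

/-- a median -/
theorem median {α : Type} (T : Finset α) (hT : T.Nonempty) (p : α → ℝ) :
    ∃ m : ℝ, 2 * (T.filter (fun τ => p τ < m)).card ≤ T.card ∧
      2 * (T.filter (fun τ => m < p τ)).card ≤ T.card := by
  classical
  set S : Finset α := T.filter (fun τ => 2 * (T.filter (fun σ => p τ < p σ)).card ≤ T.card) with hS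
  have hSne : S.Nonempty := by
    obtain ⟨τ, hτ, hmax⟩ := T.exists_max_image p hT
    refine ⟨τ, ?_⟩
    rw [hS, Finset.mem_filter]
    refine ⟨hτ, ?_⟩
    have : T.filter (fun σ => p τ < p σ) = ∅ := by
      apply Finset.filter_eq_empty_iff.mpr
      intro σ hσ
      exact not_lt.mpr (hmax σ hσ)
    rw [this]
    simp
  obtain ⟨τ, hτS, hmin⟩ := S.exists_min_image p hSne
  have hτS' := hτS
  rw [hS, Finset.mem_filter] at hτS'
  refine ⟨p τ, ?_, hτS'.2⟩
  by_cases hne : (T.filter (fun σ => p σ < p τ)).Nonempty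
  · obtain ⟨τ', hτ', hmax'⟩ := (T.filter (fun σ => p σ < p τ)).exists_max_image p hne
    rw [Finset.mem_filter] at hτ'
    have hnot : ¬ (2 * (T.filter (fun σ => p τ' < p σ)).card ≤ T.card) := by
      intro h
      have h1 : τ' ∈ S := by
        rw [hS, Finset.mem_filter]
        exact ⟨hτ'.1, h⟩
      have := hmin τ' h1
      linarith [hτ'.2]
    have hsub : T.filter (fun σ => p τ' < p σ) ⊆ T.filter (fun σ => ¬ (p σ < p τ)) := by
      intro σ hσ
      rw [Finset.mem_filter] at hσ ⊢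
      refine ⟨hσ.1, ?_⟩
      intro hlt
      have := hmax' σ (by rw [Finset.mem_filter]; exact ⟨hσ.1, hlt⟩)
      linarith [hσ.2]
    have hcard := Finset.card_le_card hsub
    have hsum := Finset.card_filter_add_card_filter_not (s := T) (fun σ => p σ < p τ)
    omega
  · rw [Finset.not_nonempty_iff_eq_empty] at hne
    rw [hne]
    simp

/-- half of a box -/
theorem half_box {d : ℕ} (x y : Fin d → ℝ) (κ : ℝ) (M : Matrix (Fin d) (Fin d) ℝ)
    (hκ0 : 0 ≤ κ) (hκ : κ ≤ 1) (hy : y ∈ box 0 1 M) : x + κ • y ∈ box x 1 M := by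
  obtain ⟨t, ht, rfl⟩ := hy
  refine ⟨κ • t, ?_, ?_⟩
  · intro j
    rw [Pi.smul_apply, smul_eq_mul, abs_mul, abs_of_nonneg hκ0]
    calc κ * |t j| ≤ 1 * 1 := mul_le_mul hκ (ht j) (abs_nonneg _) zero_le_one
      _ = 1 := one_mul 1
  · rw [Matrix.mulVec_smul, one_smul, one_smul, zero_add]

theorem centre_box {d : ℕ} (x : Fin d → ℝ) (M : Matrix (Fin d) (Fin d) ℝ) : x ∈ box x 1 M := by
  refine ⟨0, ?_, ?_⟩
  · intro j
    simp
  · simp

/-- the geometric step -/
theorem geo {d : ℕ} {α : Type} (A B : Finset α) (M : α → Matrix (Fin d) (Fin d) ℝ)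
    (o e : Fin d → ℝ) (p : α → ℝ) (m : ℝ) (hB : B ⊆ A) (τ' : α) (hτ' : τ' ∈ A)
    (h : ∀ τ ∈ B, (p τ' ≤ m ∧ m ≤ p τ ∧ p τ - m ≤ m - p τ') ∨
      (m ≤ p τ' ∧ p τ ≤ m ∧ m - p τ ≤ p τ' - m))
    (s : α) (hs : box 0 (1 / (d : ℝ) ^ 2) (M s) ⊆ convexHull ℝ (⋃ τ ∈ B, box 0 1 (M τ))) :
    box (o + m • e) (1 / (2 * (d : ℝ) ^ 2)) (M s) ⊆
      convexHull ℝ (⋃ τ ∈ A, box (o + p τ • e) 1 (M τ)) := by
  set H := convexHull ℝ (⋃ τ ∈ A, box (o + p τ • e) 1 (M τ)) with hH
  have hHc : Convex ℝ H := convex_convexHull ℝ _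
  have hmem : ∀ τ ∈ A, ∀ x ∈ box (o + p τ • e) 1 (M τ), x ∈ H := by
    intro τ hτ x hx
    apply subset_convexHull
    exact Set.mem_biUnion hτ hx
  -- the preimage
  have hpre : Convex ℝ {x : Fin d → ℝ | o + m • e + (1 / 2 : ℝ) • x ∈ H} := by
    intro x hx y hy a b ha hb hab
    have h1 := hHc hx hy ha hb hab
    have h2 : o + m • e + (1 / 2 : ℝ) • (a • x + b • y) =
        a • (o + m • e + (1 / 2 : ℝ) • x) + b • (o + m • e + (1 / 2 : ℝ) • y) := by
      ext j
      simp only [Pi.add_apply, Pi.smul_apply, smul_eq_mul]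
      have hb' : b = 1 - a := by linarith
      subst hb'
      ring
    show o + m • e + (1 / 2 : ℝ) • (a • x + b • y) ∈ H
    rw [h2]
    exact h1
  have hkey : ∀ τ ∈ B, ∀ b ∈ box 0 1 (M τ), o + m • e + (1 / 2 : ℝ) • b ∈ H := by
    intro τ hτ b hb
    have hτA := hB hτ
    by_cases heq : p τ = p τ'
    · have hm : m = p τ := by
        rcases h τ hτ with h1 | h1
        · linarith [h1.1, h1.2.1]
        · linarith [h1.1, h1.2.1]
      apply hmem τ hτA
      rw [hm]
      exact half_box _ _ _ _ (by norm_num) (by norm_num) hb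
    · set l : ℝ := (m - p τ') / (p τ - p τ') with hl
      have hne : p τ - p τ' ≠ 0 := sub_ne_zero.mpr heq
      have hl' : l * (p τ - p τ') = m - p τ' := by
        rw [hl]; field_simp
      have hl1 : l ≤ 1 := by
        rcases h τ hτ with h1 | h1
        · have hpos : 0 < p τ - p τ' := lt_of_le_of_ne (by linarith [h1.1, h1.2.1]) (Ne.symm hne)
          rw [hl, div_le_one hpos]
          linarith [h1.2.1]
        · have hpos : p τ - p τ' < 0 := lt_of_le_of_ne (by linarith [h1.1, h1.2.1]) hne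
          rw [hl, div_le_one_of_neg hpos]
          linarith [h1.2.1]
      have hl2 : 1 / 2 ≤ l := by
        rcases h τ hτ with h1 | h1
        · have hpos : 0 < p τ - p τ' := lt_of_le_of_ne (by linarith [h1.1, h1.2.1]) (Ne.symm hne)
          rw [hl, le_div_iff₀ hpos]
          linarith [h1.2.2]
        · have hpos : p τ - p τ' < 0 := lt_of_le_of_ne (by linarith [h1.1, h1.2.1]) hne
          rw [hl, le_div_iff_of_neg hpos]
          linarith [h1.2.2]
      have hlpos : 0 < l := by linarith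
      have hx1 : (o + p τ • e) + (1 / (2 * l)) • b ∈ H := by
        apply hmem τ hτA
        apply half_box _ _ _ _ (by positivity) _ hb
        rw [div_le_one (by positivity)]
        linarith
      have hx2 : (o + p τ' • e) ∈ H := hmem τ' hτ' _ (centre_box _ _)
      have h3 := hHc hx1 hx2 hlpos.le (by linarith : (0 : ℝ) ≤ 1 - l) (by ring)
      have h4 : l • ((o + p τ • e) + (1 / (2 * l)) • b) + (1 - l) • (o + p τ' • e) =
          o + m • e + (1 / 2 : ℝ) • b := by
        ext j
        simp only [Pi.add_apply, Pi.smul_apply, smul_eq_mul]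
        have h5 : m = l * (p τ - p τ') + p τ' := by linarith
        rw [h5]
        field_simp
        ring
      rw [h4] at h3
      exact h3
  have hsub : convexHull ℝ (⋃ τ ∈ B, box 0 1 (M τ)) ⊆
      {x : Fin d → ℝ | o + m • e + (1 / 2 : ℝ) • x ∈ H} := by
    apply convexHull_min _ hpre
    intro x hx
    simp only [Set.mem_iUnion] at hx
    obtain ⟨τ, hτ, hx⟩ := hx
    exact hkey τ hτ x hx
  rintro x ⟨t, ht, rfl⟩
  have h1 : (0 : Fin d → ℝ) + (1 / (d : ℝ) ^ 2) • (M s).mulVec t ∈
      box 0 (1 / (d : ℝ) ^ 2) (M s) := ⟨t, ht, rfl⟩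
  have h2 := hsub (hs h1)
  have h3 : o + m • e + (1 / 2 : ℝ) • ((0 : Fin d → ℝ) + (1 / (d : ℝ) ^ 2) • (M s).mulVec t) =
      o + m • e + (1 / (2 * (d : ℝ) ^ 2)) • (M s).mulVec t := by
    rw [zero_add, smul_smul]
    congr 2
    ring
  have h4 : o + m • e + (1 / 2 : ℝ) • ((0 : Fin d → ℝ) + (1 / (d : ℝ) ^ 2) • (M s).mulVec t) ∈ H := h2
  rw [h3] at h4
  exact h4

/-- one of the two symmetric cases, packaged -/
theorem cas {d : ℕ} {α : Type} (A : Finset α) (M : α → Matrix (Fin d) (Fin d) ℝ)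
    (o e : Fin d → ℝ) (p : α → ℝ) (m c : ℝ) (hc : 0 < c)
    (hp : c ≤ ((A.filter (fun τ => m ≤ p τ)).card : ℝ))
    (hm : c ≤ ((A.filter (fun τ => p τ ≤ m)).card : ℝ))
    (N : Finset α)
    (hN : ∀ B : Finset α, B ⊆ A → c ≤ (B.card : ℝ) →
      ∃ s ∈ N, box 0 (1 / (d : ℝ) ^ 2) (M s) ⊆ convexHull ℝ (⋃ τ ∈ B, box 0 1 (M τ))) :
    ∃ s ∈ N, box (o + m • e) (1 / (2 * (d : ℝ) ^ 2)) (M s) ⊆
      convexHull ℝ (⋃ τ ∈ A, box (o + p τ • e) 1 (M τ)) := by
  have hpne : (A.filter (fun τ => m ≤ p τ)).Nonempty := by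
    rw [← Finset.card_pos]
    have : (0 : ℝ) < ((A.filter (fun τ => m ≤ p τ)).card : ℝ) := lt_of_lt_of_le hc hp
    exact_mod_cast this
  have hmne : (A.filter (fun τ => p τ ≤ m)).Nonempty := by
    rw [← Finset.card_pos]
    have : (0 : ℝ) < ((A.filter (fun τ => p τ ≤ m)).card : ℝ) := lt_of_lt_of_le hc hm
    exact_mod_cast this
  obtain ⟨τp, hτp, hmaxp⟩ := Finset.exists_max_image _ p hpne
  obtain ⟨τm, hτm, hminm⟩ := Finset.exists_min_image _ p hmne
  rw [Finset.mem_filter] at hτp hτm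
  by_cases hU : p τp - m ≤ m - p τm
  · obtain ⟨s, hs, hsub⟩ := hN _ (Finset.filter_subset _ _) hp
    refine ⟨s, hs, geo A _ M o e p m (Finset.filter_subset _ _) τm hτm.1 ?_ s hsub⟩
    intro τ hτ
    left
    have h1 := hmaxp τ hτ
    rw [Finset.mem_filter] at hτ
    exact ⟨hτm.2, hτ.2, by linarith⟩
  · obtain ⟨s, hs, hsub⟩ := hN _ (Finset.filter_subset _ _) hm
    refine ⟨s, hs, geo A _ M o e p m (Finset.filter_subset _ _) τp hτp.1 ?_ s hsub⟩
    intro τ hτ
    right
    have h1 := hminm τ hτ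
    rw [Finset.mem_filter] at hτ
    exact ⟨hτp.2, hτ.2, by linarith⟩

/-- the choice of β -/
theorem beta (γ : ℝ) (hγ : 1 < γ) : ∃ β : ℝ, 0 < β ∧ β < 1 / 2 ∧
    2 * (1 / (2 * (1 - β))) ^ γ < 1 := by
  have hγ0 : 0 < γ := by linarith
  have h1 : (2 : ℝ) ^ (1 / γ) < 2 := by
    calc (2 : ℝ) ^ (1 / γ) < (2 : ℝ) ^ (1 : ℝ) := by
          apply Real.rpow_lt_rpow_of_exponent_lt (by norm_num)
          rw [div_lt_one hγ0]; exact hγ
      _ = 2 := Real.rpow_one 2
  have h0 : 0 < (2 : ℝ) ^ (1 / γ) := Real.rpow_pos_of_pos (by norm_num) _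
  refine ⟨1 / 2 - (2 : ℝ) ^ (1 / γ) / 4, by linarith, by linarith, ?_⟩
  set w := (2 : ℝ) ^ (1 / γ) with hw
  have h2 : 2 * (1 - (1 / 2 - w / 4)) = 1 + w / 2 := by ring
  rw [h2]
  have h3 : w < 1 + w / 2 := by linarith
  have h4 : w ^ γ = 2 := by
    rw [hw, ← Real.rpow_mul (by norm_num), one_div, inv_mul_cancel₀ hγ0.ne', Real.rpow_one]
  have h5 : (2 : ℝ) < (1 + w / 2) ^ γ := by
    calc (2 : ℝ) = w ^ γ := h4.symm
      _ < (1 + w / 2) ^ γ := Real.rpow_lt_rpow h0.le h3 hγ0
  rw [Real.div_rpow zero_le_one (by linarith), Real.one_rpow]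
  rw [mul_one_div, div_lt_one (by linarith)]
  exact h5

end J_line

/-- TARGET -/
theorem line (d : ℕ) (hd : 1 ≤ d) (γ : ℝ) (hγ : 1 < γ) : ∃ C : ℝ, 0 < C ∧
    ∀ (α : Type) (T : Finset α) (M : α → Matrix (Fin d) (Fin d) ℝ),
      (∀ τ ∈ T, (M τ).det ≠ 0) → ∀ (o e : Fin d → ℝ) (p : α → ℝ) (a : ℝ), 0 < a →
      ∃ N : Finset (ℝ × α), (∀ n ∈ N, n.2 ∈ T) ∧ (N.card : ℝ) ≤ C * ((T.card : ℝ) / a) ^ γ ∧
        ∀ A : Finset α, A ⊆ T → a ≤ A.card →
          ∃ n ∈ N, box (o + n.1 • e) (1 / (2 * (d : ℝ) ^ 2)) (M n.2) ⊆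
            convexHull ℝ (⋃ τ ∈ A, box (o + p τ • e) 1 (M τ)) := by
  classical
  have hγ0 : 0 < γ := by linarith
  obtain ⟨C0, hC0, hconc⟩ := conc d γ hγ
  obtain ⟨β, hβ0, hβ1, hβ2⟩ := J_line.beta γ hγ
  set q : ℝ := 2 * (1 / (2 * (1 - β))) ^ γ with hq
  have hβi : 0 < (1 / β) ^ γ := Real.rpow_pos_of_pos (by positivity) _
  set C : ℝ := C0 * (1 / β) ^ γ / (1 - q) with hC
  have h1q : 0 < 1 - q := by linarith
  have hCpos : 0 < C := by positivity
  have hCeq : C0 * (1 / β) ^ γ + q * C = C := by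
    have : C * (1 - q) = C0 * (1 / β) ^ γ := by
      rw [hC]; field_simp
    linarith
  refine ⟨C, hCpos, ?_⟩
  intro α T M hM o e p a ha
  induction hn : T.card using Nat.strong_induction_on generalizing T a with
  | _ n ih =>
    rcases T.eq_empty_or_nonempty with hT | hT
    · refine ⟨∅, by simp, ?_, ?_⟩
      · simp only [Finset.card_empty, Nat.cast_zero]
        have : (0 : ℝ) ≤ ((n : ℝ) / a) ^ γ := Real.rpow_nonneg (by positivity) _
        positivity
      · intro A hA haA
        rw [hT, Finset.subset_empty] at hA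
        rw [hA] at haA
        simp at haA
        linarith
    · obtain ⟨m, hm1, hm2⟩ := J_line.median T hT p
      have hTpos : 0 < T.card := Finset.card_pos.mpr hT
      set T1 := T.filter (fun τ => p τ < m) with hT1
      set T2 := T.filter (fun τ => m < p τ) with hT2
      obtain ⟨N0, hN0T, hN0c, hN0⟩ := hconc α T M hM (β * a) (by positivity)
      have h1β : 0 < 1 - β := by linarith
      obtain ⟨N1, hN1T, hN1c, hN1⟩ := ih T1.card (by omega) T1
        (fun τ hτ => hM τ (Finset.filter_subset _ _ hτ)) ((1 - β) * a) (by positivity) rfl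
      obtain ⟨N2, hN2T, hN2c, hN2⟩ := ih T2.card (by omega) T2
        (fun τ hτ => hM τ (Finset.filter_subset _ _ hτ)) ((1 - β) * a) (by positivity) rfl
      refine ⟨N0.image (fun s => (m, s)) ∪ N1 ∪ N2, ?_, ?_, ?_⟩
      · intro x hx
        rw [Finset.mem_union, Finset.mem_union, Finset.mem_image] at hx
        rcases hx with (⟨s, hs, rfl⟩ | hx) | hx
        · exact hN0T hs
        · exact Finset.filter_subset _ _ (hN1T x hx)
        · exact Finset.filter_subset _ _ (hN2T x hx)
      · have hcard : ((N0.image (fun s => (m, s)) ∪ N1 ∪ N2).card : ℝ) ≤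
            N0.card + N1.card + N2.card := by
          have h1 : (N0.image (fun s => (m, s)) ∪ N1 ∪ N2).card ≤ N0.card + N1.card + N2.card := by
            refine (Finset.card_union_le _ _).trans ?_
            refine Nat.add_le_add_right ((Finset.card_union_le _ _).trans ?_) _
            exact Nat.add_le_add_right Finset.card_image_le _
          exact_mod_cast h1
        have hn' : (T.card : ℝ) = n := by exact_mod_cast hn
        rw [hn'] at hN0c
        have e0 : ((n : ℝ) / (β * a)) ^ γ = (1 / β) ^ γ * ((n : ℝ) / a) ^ γ := by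
          rw [← Real.mul_rpow (by positivity) (by positivity)]
          congr 1
          field_simp
        have eh : ∀ k : ℕ, 2 * k ≤ T.card → ((k : ℝ) / ((1 - β) * a)) ^ γ ≤
            (1 / (2 * (1 - β))) ^ γ * ((n : ℝ) / a) ^ γ := by
          intro k hk
          rw [← Real.mul_rpow (by positivity) (by positivity)]
          apply Real.rpow_le_rpow (by positivity) _ hγ0.le
          have hk' : (2 : ℝ) * k ≤ n := by
            rw [hn] at hk
            exact_mod_cast hk
          have e1 : 1 / (2 * (1 - β)) * ((n : ℝ) / a) = ((n : ℝ) / 2) / ((1 - β) * a) := by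
            field_simp
          rw [e1]
          apply div_le_div_of_nonneg_right _ (by positivity)
          linarith
        have f1 := eh _ hm1
        have f2 := eh _ hm2
        have g1 : (N1.card : ℝ) ≤ C * ((1 / (2 * (1 - β))) ^ γ * ((n : ℝ) / a) ^ γ) :=
          hN1c.trans (mul_le_mul_of_nonneg_left f1 hCpos.le)
        have g2 : (N2.card : ℝ) ≤ C * ((1 / (2 * (1 - β))) ^ γ * ((n : ℝ) / a) ^ γ) :=
          hN2c.trans (mul_le_mul_of_nonneg_left f2 hCpos.le)
        rw [e0] at hN0c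
        calc ((N0.image (fun s => (m, s)) ∪ N1 ∪ N2).card : ℝ)
            ≤ N0.card + N1.card + N2.card := hcard
          _ ≤ C0 * ((1 / β) ^ γ * ((n : ℝ) / a) ^ γ) +
              C * ((1 / (2 * (1 - β))) ^ γ * ((n : ℝ) / a) ^ γ) +
              C * ((1 / (2 * (1 - β))) ^ γ * ((n : ℝ) / a) ^ γ) := by linarith
          _ = (C0 * (1 / β) ^ γ + q * C) * ((n : ℝ) / a) ^ γ := by rw [hq]; ring
          _ = C * ((n : ℝ) / a) ^ γ := by rw [hCeq]
      · intro A hAT haA
        have mono : ∀ T' : Finset α, convexHull ℝ (⋃ τ ∈ A ∩ T', box (o + p τ • e) 1 (M τ)) ⊆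
            convexHull ℝ (⋃ τ ∈ A, box (o + p τ • e) 1 (M τ)) := by
          intro T'
          apply convexHull_mono
          intro x hx
          simp only [Set.mem_iUnion] at hx ⊢
          obtain ⟨τ, hτ, hx⟩ := hx
          exact ⟨τ, Finset.mem_of_mem_inter_left hτ, hx⟩
        by_cases h1 : (1 - β) * a ≤ ((A ∩ T1).card : ℝ)
        · obtain ⟨x, hx, hsub⟩ := hN1 (A ∩ T1) Finset.inter_subset_right h1
          refine ⟨x, ?_, hsub.trans (mono T1)⟩
          rw [Finset.mem_union, Finset.mem_union]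
          exact Or.inl (Or.inr hx)
        · by_cases h2 : (1 - β) * a ≤ ((A ∩ T2).card : ℝ)
          · obtain ⟨x, hx, hsub⟩ := hN2 (A ∩ T2) Finset.inter_subset_right h2
            refine ⟨x, ?_, hsub.trans (mono T2)⟩
            rw [Finset.mem_union]
            exact Or.inr hx
          · have hp : β * a ≤ ((A.filter (fun τ => m ≤ p τ)).card : ℝ) := by
              have hs := Finset.card_filter_add_card_filter_not (s := A) (fun τ => m ≤ p τ)
              have hsub : A.filter (fun τ => ¬ (m ≤ p τ)) ⊆ A ∩ T1 := by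
                intro τ hτ
                rw [Finset.mem_filter] at hτ
                rw [Finset.mem_inter, hT1, Finset.mem_filter]
                exact ⟨hτ.1, hAT hτ.1, not_le.mp hτ.2⟩
              have hc : ((A.filter (fun τ => ¬ (m ≤ p τ))).card : ℝ) ≤ ((A ∩ T1).card : ℝ) := by
                exact_mod_cast Finset.card_le_card hsub
              have hs' : ((A.filter (fun τ => m ≤ p τ)).card : ℝ) +
                  ((A.filter (fun τ => ¬ (m ≤ p τ))).card : ℝ) = (A.card : ℝ) := by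
                exact_mod_cast hs
              push Not at h1
              linarith
            have hm : β * a ≤ ((A.filter (fun τ => p τ ≤ m)).card : ℝ) := by
              have hs := Finset.card_filter_add_card_filter_not (s := A) (fun τ => p τ ≤ m)
              have hsub : A.filter (fun τ => ¬ (p τ ≤ m)) ⊆ A ∩ T2 := by
                intro τ hτ
                rw [Finset.mem_filter] at hτ
                rw [Finset.mem_inter, hT2, Finset.mem_filter]
                exact ⟨hτ.1, hAT hτ.1, not_le.mp hτ.2⟩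
              have hc : ((A.filter (fun τ => ¬ (p τ ≤ m))).card : ℝ) ≤ ((A ∩ T2).card : ℝ) := by
                exact_mod_cast Finset.card_le_card hsub
              have hs' : ((A.filter (fun τ => p τ ≤ m)).card : ℝ) +
                  ((A.filter (fun τ => ¬ (p τ ≤ m))).card : ℝ) = (A.card : ℝ) := by
                exact_mod_cast hs
              push Not at h2
              linarith
            obtain ⟨s, hs, hsub⟩ := J_line.cas A M o e p m (β * a) (by positivity) hp hm N0
              (fun B hB hc => hN0 B (hB.trans hAT) hc)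
            refine ⟨(m, s), ?_, hsub⟩
            rw [Finset.mem_union, Finset.mem_union, Finset.mem_image]
            exact Or.inl (Or.inl ⟨s, hs, rfl⟩)

end Pool.Agent.Helper326_VN
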