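import Pool.Agent.Helper326_VN.Defs
import Pool.Agent.Helper326_VN.Line
import Pool.Agent.Helper326_VN.Count
import Pool.Agent.Helper326_VN.Claim

set_option autoImplicit false

/-!
The base of the recursion.
-/

namespace Pool.Agent.Helper326_VN


namespace J_claim_base

open Finset

lemma hull_range {d n : ℕ} (v : Fin n → Fin d → ℝ) {x : Fin d → ℝ}
    (hx : x ∈ convexHull ℝ (Set.range v)) :
    ∃ w : Fin n → ℝ, (∀ i, 0 ≤ w i) ∧ ∑ i, w i = 1 ∧ x = ∑ i, w i • v i := by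
  have hsub : convexHull ℝ (Set.range v) ⊆
      {x | ∃ w : Fin n → ℝ, (∀ i, 0 ≤ w i) ∧ ∑ i, w i = 1 ∧ x = ∑ i, w i • v i} := by
    apply convexHull_min
    · rintro _ ⟨i, rfl⟩
      refine ⟨fun j => if j = i then 1 else 0, ?_, ?_, ?_⟩
      · intro j
        dsimp only
        split_ifs <;> norm_num
      · simp
      · simp
    · rintro x ⟨w, hw0, hw1, rfl⟩ y ⟨w', hw0', hw1', rfl⟩ a b ha hb hab
      refine ⟨fun i => a * w i + b * w' i, ?_, ?_, ?_⟩
      · intro i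
        have h1 := mul_nonneg ha (hw0 i)
        have h2 := mul_nonneg hb (hw0' i)
        dsimp only
        linarith
      · rw [sum_add_distrib, ← mul_sum, ← mul_sum, hw1, hw1']
        linarith
      · rw [smul_sum, smul_sum, ← sum_add_distrib]
        refine sum_congr rfl fun i _ => ?_
        rw [smul_smul, smul_smul, add_smul]
  exact hsub hx

lemma box_mem {d : ℕ} (x : Fin d → ℝ) (M : Matrix (Fin d) (Fin d) ℝ) (t : Fin d → ℝ)
    (ht : ∀ j, |t j| ≤ 1) (s : ℝ) (hs : |s| ≤ 1) : x + s • M.mulVec t ∈ box x 1 M := by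
  refine ⟨s • t, fun j => ?_, ?_⟩
  · rw [Pi.smul_apply, smul_eq_mul, abs_mul]
    have h1 := ht j
    have h2 := abs_nonneg (t j)
    have h3 := abs_nonneg s
    nlinarith
  · rw [one_smul, Matrix.mulVec_smul]

lemma key {d : ℕ} {ι : Type} (k : ℕ) (hk : k + 1 = d) (c : ι → Fin d → ℝ)
    (M : ι → Matrix (Fin d) (Fin d) ℝ) (z e : Fin d → ℝ) (he : e = Pi.single ⟨k, by omega⟩ 1)
    (τ : Fin (k + 1) → ι) (hm : Meets k z c τ) :
    ∃ (p : ℝ) (h : ι), box (z + p • e) 1 ((1 / (d : ℝ)) • M h) ⊆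
      convexHull ℝ (⋃ j, box (c (τ j)) 1 (M (τ j))) := by
  obtain ⟨x, hx, hxz⟩ := hm
  obtain ⟨w, hw0, hw1, hxw⟩ := hull_range _ hx
  have hd0 : (0 : ℝ) < d := by
    have : 0 < d := by omega
    exact_mod_cast this
  have hxe : z + (x ⟨k, by omega⟩ - z ⟨k, by omega⟩) • e = x := by
    ext j
    rw [Pi.add_apply, Pi.smul_apply, smul_eq_mul, he]
    by_cases hj : j = ⟨k, by omega⟩
    · subst hj
      rw [Pi.single_eq_same]
      ring
    · rw [Pi.single_eq_of_ne hj, mul_zero, add_zero, hxz j]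
      have h1 := j.2
      have h2 : (j : ℕ) ≠ k := fun h => hj (Fin.ext h)
      omega
  obtain ⟨i0, hi0⟩ : ∃ i0, 1 / (d : ℝ) ≤ w i0 := by
    by_contra hcon
    push Not at hcon
    have h1 : ∑ i, w i < ∑ _i : Fin (k + 1), 1 / (d : ℝ) :=
      sum_lt_sum_of_nonempty univ_nonempty fun i _ => hcon i
    rw [hw1, sum_const, card_univ, Fintype.card_fin, nsmul_eq_mul, hk, mul_one_div_cancel hd0.ne'] at h1
    exact lt_irrefl _ h1
  refine ⟨x ⟨k, by omega⟩ - z ⟨k, by omega⟩, τ i0, ?_⟩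
  rw [hxe]
  rintro q ⟨t, ht, rfl⟩
  have hw : 0 < w i0 := lt_of_lt_of_le (by positivity) hi0
  obtain ⟨s, hs⟩ : ∃ s : Fin (k + 1) → ℝ, s = fun j => if j = i0 then 1 / (d * w i0) else 0 := ⟨_, rfl⟩
  have hs1 : ∀ j, |s j| ≤ 1 := by
    intro j
    rw [hs]
    dsimp only
    split_ifs
    · rw [abs_of_pos (by positivity), div_le_one (by positivity)]
      rw [div_le_iff₀ hd0] at hi0
      linarith
    · norm_num
  have e1 : x + (1 : ℝ) • ((1 / (d : ℝ)) • M (τ i0)).mulVec t =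
      ∑ j, w j • (c (τ j) + s j • (M (τ j)).mulVec t) := by
    have e2 : ∀ j, w j • (c (τ j) + s j • (M (τ j)).mulVec t) =
        w j • c (τ j) + (w j * s j) • (M (τ j)).mulVec t := by
      intro j
      rw [smul_add, smul_smul]
    rw [sum_congr rfl fun j _ => e2 j, sum_add_distrib, ← hxw, one_smul, Matrix.smul_mulVec]
    congr 1
    rw [sum_eq_single i0]
    · congr 1
      rw [hs]
      simp only [if_true]
      field_simp
    · intro j _ hj
      rw [hs]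
      simp only [if_neg hj, mul_zero, zero_smul]
    · intro h
      exact absurd (mem_univ _) h
  rw [e1]
  refine (convex_convexHull ℝ _).sum_mem (fun j _ => hw0 j) hw1 fun j _ => ?_
  refine subset_convexHull ℝ _ ?_
  rw [Set.mem_iUnion]
  exact ⟨j, box_mem _ _ t ht _ (hs1 j)⟩

theorem main (d : ℕ) (hd : 1 ≤ d) (γ : ℝ) (hγ : 1 < γ) : Claim d γ (d - 1) := by
  classical
  obtain ⟨C0, hC0, hline⟩ := line d hd γ hγ
  have hd0 : (0 : ℝ) < d := by exact_mod_cast hd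
  have hk : d - 1 + 1 = d := by omega
  have hkr : ((d - 1 : ℕ) : ℝ) + 1 = d := by
    have : ((d - 1 + 1 : ℕ) : ℝ) = (d : ℝ) := by rw [hk]
    rw [← this]
    push_cast
    ring
  refine ⟨C0 * ((d : ℝ) ^ d) ^ γ, by positivity, ?_⟩
  intro ι _ c M hM z T D hD
  obtain ⟨e, he⟩ : ∃ e : Fin d → ℝ, e = Pi.single ⟨d - 1, by omega⟩ 1 := ⟨_, rfl⟩
  have hch : ∀ τ : Fin (d - 1 + 1) → ι, ∃ (p : ℝ) (h : ι), Meets (d - 1) z c τ →
      box (z + p • e) 1 ((1 / (d : ℝ)) • M h) ⊆ convexHull ℝ (⋃ j, box (c (τ j)) 1 (M (τ j))) := by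
    intro τ
    by_cases hm : Meets (d - 1) z c τ
    · obtain ⟨p, h, hph⟩ := key (d - 1) hk c M z e he τ hm
      exact ⟨p, h, fun _ => hph⟩
    · exact ⟨0, τ ⟨0, by omega⟩, fun h => absurd h hm⟩
  choose p h hph using hch
  obtain ⟨T', hT'⟩ : ∃ T' : Finset (Fin (d - 1 + 1) → ι), T' = T.filter (fun τ => Meets (d - 1) z c τ) :=
    ⟨_, rfl⟩
  obtain ⟨a, ha⟩ : ∃ a : ℝ, a = (D / (((d - 1 : ℕ) : ℝ) + 1)) ^ (d - 1 + 1) := ⟨_, rfl⟩
  have ha' : a = D ^ d / (d : ℝ) ^ d := by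
    rw [ha, hkr, hk, div_pow]
  have ha0 : 0 < a := by
    rw [ha']
    positivity
  obtain ⟨N', _, hN2, hN3⟩ := hline (Fin (d - 1 + 1) → ι) T' (fun τ => (1 / (d : ℝ)) • M (h τ))
    (fun τ _ => by
      rw [Matrix.det_smul]
      exact mul_ne_zero (pow_ne_zero _ (by positivity)) (hM _)) z e p a ha0
  refine ⟨N'.image (fun n => (z + n.1 • e, h n.2)), ?_, ?_⟩
  · have h1 : ((N'.image (fun n => (z + n.1 • e, h n.2))).card : ℝ) ≤ N'.card := by
      exact_mod_cast card_image_le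
    have h2 : (T'.card : ℝ) ≤ T.card := by
      rw [hT']
      exact_mod_cast card_filter_le _ _
    have h3 : d - 1 - (d - 1) = 0 := Nat.sub_self _
    have h4 : (T'.card : ℝ) / a ≤ (d : ℝ) ^ d * ((T.card : ℝ) * (Fintype.card ι : ℝ) ^ (d - 1 - (d - 1)) / D ^ d) := by
      rw [h3, pow_zero, mul_one, ha']
      have e1 : (T'.card : ℝ) / (D ^ d / (d : ℝ) ^ d) = (d : ℝ) ^ d * ((T'.card : ℝ) / D ^ d) := by
        field_simp
      rw [e1]
      gcongr
    have h5 : ((T'.card : ℝ) / a) ^ γ ≤ ((d : ℝ) ^ d) ^ γ *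
        ((T.card : ℝ) * (Fintype.card ι : ℝ) ^ (d - 1 - (d - 1)) / D ^ d) ^ γ := by
      rw [← Real.mul_rpow (by positivity) (by positivity)]
      exact Real.rpow_le_rpow (by positivity) h4 (by linarith)
    calc ((N'.image (fun n => (z + n.1 • e, h n.2))).card : ℝ) ≤ N'.card := h1
      _ ≤ C0 * ((T'.card : ℝ) / a) ^ γ := hN2
      _ ≤ C0 * (((d : ℝ) ^ d) ^ γ *
        ((T.card : ℝ) * (Fintype.card ι : ℝ) ^ (d - 1 - (d - 1)) / D ^ d) ^ γ) :=
          mul_le_mul_of_nonneg_left h5 hC0.le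
      _ = C0 * ((d : ℝ) ^ d) ^ γ *
        ((T.card : ℝ) * (Fintype.card ι : ℝ) ^ (d - 1 - (d - 1)) / D ^ d) ^ γ := by ring
  · intro G hdeep hG
    obtain ⟨𝒯, h1, h2⟩ := count (d - 1) (by omega) z c G D hD hdeep
    have h3 : 𝒯 ⊆ T' := by
      intro τ hτ
      rw [hT', mem_filter]
      exact ⟨hG τ (h1 τ hτ).1 (h1 τ hτ).2, (h1 τ hτ).2⟩
    obtain ⟨n, hn, hsub⟩ := hN3 𝒯 h3 (by rw [ha]; exact h2)
    refine ⟨(z + n.1 • e, h n.2), mem_image_of_mem _ hn, ?_⟩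
    dsimp only
    intro q hq
    have h4 : q ∈ box (z + n.1 • e) (1 / (2 * (d : ℝ) ^ 2)) ((1 / (d : ℝ)) • M (h n.2)) := by
      obtain ⟨t, ht, rfl⟩ := hq
      refine ⟨t, ht, ?_⟩
      rw [Matrix.smul_mulVec, smul_smul]
      congr 2
      field_simp
    have h5 := hsub h4
    refine convexHull_min ?_ (convex_convexHull ℝ _) h5
    intro y hy
    rw [Set.mem_iUnion₂] at hy
    obtain ⟨τ, hτ, hy⟩ := hy
    have h6 := hph τ (h1 τ hτ).2 hy
    refine convexHull_mono ?_ h6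
    intro v hv
    rw [Set.mem_iUnion] at hv
    obtain ⟨j, hj⟩ := hv
    rw [Set.mem_iUnion₂]
    exact ⟨τ j, (h1 τ hτ).1 j, hj⟩

end J_claim_base

/-- TARGET -/
theorem claim_base (d : ℕ) (hd : 1 ≤ d) (γ : ℝ) (hγ : 1 < γ) : Claim d γ (d - 1) :=
  J_claim_base.main d hd γ hγ

end Pool.Agent.Helper326_VN
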