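import Pool.Agent.Helper326_VN.Defs

set_option autoImplicit false

/-!
Dropping a vertex (Caratheodory).
-/

namespace Pool.Agent.Helper326_VN



namespace J_drop

/-- from a convex combination of `k + 2` vectors and a nontrivial affine relation `g` one gets a
convex combination which omits one of the vectors and differs by a multiple of the relation -/
theorem shift {n : ℕ} (w g : Fin n → ℝ) (hw : ∀ i, 0 ≤ w i) (hg : ∑ i, g i = 0)
    (hne : ∃ i, g i ≠ 0) :
    ∃ (j : Fin n) (t : ℝ), (∀ i, 0 ≤ w i - t * g i) ∧ w j - t * g j = 0 := by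
  classical
  have hpos : ∃ i, 0 < g i := by
    by_contra hcon
    push Not at hcon
    obtain ⟨i, hi⟩ := hne
    have h1 : g i < 0 := lt_of_le_of_ne (hcon i) hi
    have h2 : ∑ i, g i < 0 := Finset.sum_neg' (fun i _ => hcon i) ⟨i, Finset.mem_univ i, h1⟩
    linarith
  obtain ⟨i₀, hi₀⟩ := hpos
  obtain ⟨j, hj, hmin⟩ := Finset.exists_min_image (Finset.univ.filter fun i => 0 < g i)
    (fun i => w i / g i) ⟨i₀, by simp [hi₀]⟩
  have hgj : 0 < g j := (Finset.mem_filter.mp hj).2
  refine ⟨j, w j / g j, fun i => ?_, ?_⟩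
  · rcases lt_or_ge 0 (g i) with hi | hi
    · have h3 := hmin i (by simp [hi])
      have h4 : w j / g j * g i ≤ w i / g i * g i := mul_le_mul_of_nonneg_right h3 hi.le
      rw [div_mul_cancel₀ _ hi.ne'] at h4
      linarith
    · have h5 : w j / g j * g i ≤ 0 :=
        mul_nonpos_of_nonneg_of_nonpos (div_nonneg (hw j) hgj.le) hi
      have h6 := hw i
      linarith
  · rw [div_mul_cancel₀ _ hgj.ne']
    ring

end J_drop

/-- TARGET -/
theorem drop {d : ℕ} {ι : Type} (k : ℕ) (hk : k ≤ d) (z : Fin d → ℝ) (c : ι → Fin d → ℝ)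
    (σ : Fin (k + 2) → ι) (h : Meets k z c σ) :
    ∃ j : Fin (k + 2), Meets k z c (fun i : Fin (k + 1) => σ (j.succAbove i)) := by
  classical
  obtain ⟨x, hx, hxz⟩ := h
  rw [convexHull_range_eq_exists_affineCombination] at hx
  obtain ⟨s, w₀, hw₀, hw₁, hwx⟩ := hx
  rw [Finset.affineCombination_eq_linear_combination s _ w₀ hw₁] at hwx
  set w : Fin (k + 2) → ℝ := fun i => if i ∈ s then w₀ i else 0 with hw
  have hwn : ∀ i, 0 ≤ w i := by
    intro i
    by_cases hi : i ∈ s
    · simpa [hw, hi] using hw₀ i hi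
    · simp [hw, hi]
  have hws : ∑ i, w i = 1 := by
    rw [← hw₁]
    simp [hw, Finset.sum_ite_mem]
  have hwx' : ∑ i, w i • c (σ i) = x := by
    rw [← hwx]
    simp [hw, Finset.sum_ite_mem, ite_smul]
  -- the affine relation
  let v : Fin (k + 2) → (Fin k → ℝ) × ℝ := fun i => (fun a => c (σ i) (Fin.castLE hk a), 1)
  have hdep : ¬ LinearIndependent ℝ v := by
    intro hli
    have h1 := hli.fintype_card_le_finrank
    rw [Fintype.card_fin, Module.finrank_prod, Module.finrank_fin_fun, Module.finrank_self] at h1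
    omega
  rw [Fintype.not_linearIndependent_iff] at hdep
  obtain ⟨g, hg, hne⟩ := hdep
  have hg1 : ∑ i, g i = 0 := by
    have h2 := congrArg Prod.snd hg
    simpa [v, Prod.snd_sum] using h2
  have hg2 : ∀ a : Fin k, ∑ i, g i * c (σ i) (Fin.castLE hk a) = 0 := by
    intro a
    have h2 := congrFun (congrArg Prod.fst hg) a
    simpa [v, Prod.fst_sum, Finset.sum_apply] using h2
  obtain ⟨j, t, ht0, htj⟩ := J_drop.shift w g hwn hg1 hne
  refine ⟨j, ∑ i, (w i - t * g i) • c (σ i), ?_, ?_⟩
  · refine mem_convexHull_of_exists_fintype (ι := Fin (k + 1))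
      (fun i => w (j.succAbove i) - t * g (j.succAbove i))
      (fun i => c (σ (j.succAbove i))) (fun i => ht0 _) ?_ (fun i => ⟨i, rfl⟩) ?_
    · have h3 : ∑ i, (w i - t * g i) = 1 := by
        rw [Finset.sum_sub_distrib, ← Finset.mul_sum, hws, hg1]
        ring
      rw [Fin.sum_univ_succAbove _ j, htj, zero_add] at h3
      exact h3
    · rw [Fin.sum_univ_succAbove _ j, htj, zero_smul, zero_add]
  · intro a ha
    have h4 := hg2 ⟨a, ha⟩
    have h5 : (Fin.castLE hk ⟨(a : ℕ), ha⟩ : Fin d) = a := by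
      ext
      rfl
    rw [h5] at h4
    rw [← hxz a ha, ← hwx']
    simp only [Finset.sum_apply, Pi.smul_apply, smul_eq_mul, sub_mul, Finset.sum_sub_distrib]
    have h6 : ∑ i, t * g i * c (σ i) a = t * ∑ i, g i * c (σ i) a := by
      rw [Finset.mul_sum]
      exact Finset.sum_congr rfl fun i _ => by ring
    rw [h6, h4]
    ring

end Pool.Agent.Helper326_VN
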