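import Pool.Agent.Helper326_VN.Defs
import Pool.Agent.Helper326_VN.Drop
import Pool.Agent.Helper326_VN.Exist
import Pool.Agent.Helper326_VN.Claim

set_option autoImplicit false

/-!
The step of the recursion.
-/

namespace Pool.Agent.Helper326_VN



namespace J_claim_step

open Finset in
/-- median -/
theorem median {α : Type} (T : Finset α) (p : α → ℝ) (hT : T.Nonempty) : ∃ m : ℝ,
    2 * (T.filter (fun t => p t < m)).card ≤ T.card ∧
    2 * (T.filter (fun t => m < p t)).card ≤ T.card := by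
  classical
  set S := T.filter (fun t => T.card ≤ 2 * (T.filter (fun s => p s ≤ p t)).card) with hS
  have hSne : S.Nonempty := by
    obtain ⟨t, ht, hmax⟩ := T.exists_max_image p hT
    refine ⟨t, Finset.mem_filter.2 ⟨ht, ?_⟩⟩
    have : T.filter (fun s => p s ≤ p t) = T := Finset.filter_true_of_mem hmax
    rw [this]
    omega
  obtain ⟨t0, ht0, hmin⟩ := S.exists_min_image p hSne
  have ht0' := (Finset.mem_filter.1 ht0)
  refine ⟨p t0, ?_, ?_⟩
  · by_contra hc
    push Not at hc
    have hne : (T.filter (fun t => p t < p t0)).Nonempty := by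
      rw [← Finset.card_pos]
      omega
    obtain ⟨t1, ht1, hmax⟩ := (T.filter (fun t => p t < p t0)).exists_max_image p hne
    have ht1' := Finset.mem_filter.1 ht1
    have h1 : T.filter (fun t => p t < p t0) ⊆ T.filter (fun s => p s ≤ p t1) := by
      intro s hs
      exact Finset.mem_filter.2 ⟨(Finset.mem_filter.1 hs).1, hmax s hs⟩
    have h2 := Finset.card_le_card h1
    have h3 : t1 ∈ S := Finset.mem_filter.2 ⟨ht1'.1, by omega⟩
    have h4 := hmin t1 h3
    linarith [ht1'.2]
  · have h1 : (T.filter (fun s => p s ≤ p t0)).card + (T.filter (fun s => ¬ p s ≤ p t0)).card =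
        T.card := Finset.card_filter_add_card_filter_not _
    have h2 : T.filter (fun s => ¬ p s ≤ p t0) = T.filter (fun t => p t0 < p t) := by
      apply Finset.filter_congr
      intro s _
      exact not_le
    rw [h2] at h1
    have := ht0'.2
    omega

/-- the choice of the small parameter -/
theorem small (d : ℕ) (γ : ℝ) (hγ : 1 < γ) : ∃ β : ℝ, 0 < β ∧ β < 1 ∧
    2 * (1 / (2 * (1 - β) ^ d)) ^ γ < 1 := by
  have hc : ContinuousAt (fun β : ℝ => 2 * (1 / (2 * (1 - β) ^ d)) ^ γ) 0 := by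
    apply ContinuousAt.mul continuousAt_const
    apply ContinuousAt.rpow_const
    · apply ContinuousAt.div continuousAt_const
      · fun_prop
      · simp
    · left
      simp
  have h0 : 2 * (1 / (2 * (1 - (0:ℝ)) ^ d)) ^ γ < 1 := by
    simp only [sub_zero, one_pow, mul_one]
    rw [one_div, Real.inv_rpow (by norm_num), mul_inv_lt_iff₀ (by positivity), one_mul]
    calc (2:ℝ) = 2 ^ (1:ℝ) := (Real.rpow_one 2).symm
      _ < 2 ^ γ := Real.rpow_lt_rpow_of_exponent_lt (by norm_num) hγ
  have h1 : ∀ᶠ β in nhds (0:ℝ), 2 * (1 / (2 * (1 - β) ^ d)) ^ γ < 1 :=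
    hc.eventually_lt continuousAt_const h0
  have h2 : ∀ᶠ β in nhdsWithin (0:ℝ) (Set.Ioi 0), 2 * (1 / (2 * (1 - β) ^ d)) ^ γ < 1 :=
    h1.filter_mono nhdsWithin_le_nhds
  have h3 : ∀ᶠ β in nhdsWithin (0:ℝ) (Set.Ioi 0), β < 1 :=
    (eventually_lt_nhds one_pos).filter_mono nhdsWithin_le_nhds
  have h4 : ∀ᶠ β in nhdsWithin (0:ℝ) (Set.Ioi 0), β ∈ Set.Ioi (0:ℝ) := self_mem_nhdsWithin
  obtain ⟨β, a, b, c⟩ := (h2.and (h3.and h4)).exists
  exact ⟨β, c, b, a⟩

/-- one-point extensions -/
theorem ext_card {ι : Type} [Fintype ι] [DecidableEq ι] (n : ℕ) (T : Finset (Fin n → ι)) :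
    ∃ T' : Finset (Fin (n + 1) → ι), T'.card ≤ (n + 1) * Fintype.card ι * T.card ∧
      ∀ (σ : Fin (n + 1) → ι) (j : Fin (n + 1)), (fun i => σ (j.succAbove i)) ∈ T → σ ∈ T' := by
  classical
  refine ⟨((Finset.univ : Finset (Fin (n + 1))) ×ˢ ((Finset.univ : Finset ι) ×ˢ T)).image
    (fun p => (Fin.insertNth p.1 p.2.1 p.2.2 : Fin (n + 1) → ι)), ?_, ?_⟩
  · refine Finset.card_image_le.trans ?_
    rw [Finset.card_product, Finset.card_product, Finset.card_univ, Finset.card_univ,
      Fintype.card_fin, mul_assoc]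
  · intro σ j hσ
    refine Finset.mem_image.2 ⟨(j, σ j, fun i => σ (j.succAbove i)), ?_, ?_⟩
    · simp only [Finset.mem_product, Finset.mem_univ, true_and]
      exact hσ
    · exact Fin.insertNth_self_removeNth j σ

theorem dt_sub {d : ℕ} (u x y : Fin d → ℝ) : dt u (x - y) = dt u x - dt u y := by
  unfold dt
  rw [← Finset.sum_sub_distrib]
  refine Finset.sum_congr rfl fun j _ => ?_
  simp only [Pi.sub_apply]
  ring

theorem half_convex {d : ℕ} (u z : Fin d → ℝ) : Convex ℝ {x : Fin d → ℝ | dt u (x - z) < 0} := by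
  have h1 : {x : Fin d → ℝ | dt u (x - z) < 0} =
      {x : Fin d → ℝ | (∑ j, u j • (LinearMap.proj j : (Fin d → ℝ) →ₗ[ℝ] ℝ)) x < dt u z} := by
    ext x
    simp only [Set.mem_ofPred_eq]
    rw [dt_sub]
    have : (∑ j, u j • (LinearMap.proj j : (Fin d → ℝ) →ₗ[ℝ] ℝ)) x = dt u x := by
      simp [dt]
    rw [this, sub_neg]
  rw [h1]
  exact convex_halfSpace_lt (LinearMap.isLinear _) _

end J_claim_step

/-- TARGET -/
theorem claim_step (d : ℕ) (γ : ℝ) (hγ : 1 < γ) (k : ℕ) (hk : k + 2 ≤ d)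
    (h : Claim d γ (k + 1)) : Claim d γ k := by
  classical
  obtain ⟨C1, hC1, h⟩ := h
  obtain ⟨β, hβ0, hβ1, hq⟩ := J_claim_step.small d γ hγ
  set q : ℝ := 2 * (1 / (2 * (1 - β) ^ d)) ^ γ with hqdef
  have hb1 : 0 < 1 - β := by linarith
  set a : ℝ := ((k : ℝ) + 2) / β ^ d with ha
  have ha0 : 0 < a := by positivity
  set C : ℝ := C1 * a ^ γ / (1 - q) with hC
  have hq1 : 0 < 1 - q := by linarith
  have hC0 : 0 < C := by positivity
  have hCeq : C1 * a ^ γ + q * C = C := by
    rw [hC]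
    field_simp
    ring
  refine ⟨C, hC0, ?_⟩
  intro ι _ c M hM z
  set n : ℕ := Fintype.card ι with hn
  have hkd : k < d := by omega
  set kk : Fin d := ⟨k, hkd⟩ with hkk
  have hγ0 : 0 ≤ γ := by linarith
  -- strong induction
  suffices H : ∀ (s : ℕ) (T : Finset (Fin (k + 1) → ι)), T.card = s → ∀ D : ℝ, 0 < D →
      ∃ N : Finset ((Fin d → ℝ) × ι),
      (N.card : ℝ) ≤ C * ((T.card : ℝ) * (n : ℝ) ^ (d - 1 - k) / D ^ d) ^ γ ∧
      ∀ G : Finset ι, Deep k z c G D →
        (∀ τ : Fin (k + 1) → ι, (∀ j, τ j ∈ G) → Meets k z c τ → τ ∈ T) →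
        ∃ n ∈ N, box n.1 (1 / (2 * (d : ℝ) ^ 3)) (M n.2) ⊆
          convexHull ℝ (⋃ i ∈ G, box (c i) 1 (M i)) from
    fun T D hD => H T.card T rfl D hD
  intro s
  induction s using Nat.strong_induction_on with
  | _ s ih =>
  intro T hTs D hD
  set Ts : Finset (Fin (k + 1) → ι) := T.filter (fun τ => Meets k z c τ) with hTsdef
  have hTsT : Ts.card ≤ T.card := Finset.card_filter_le _ _
  set F : ℝ := (Ts.card : ℝ) * (n : ℝ) ^ (d - 1 - k) / D ^ d with hF
  have hF0 : 0 ≤ F := by positivity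
  have hFT : F ^ γ ≤ ((T.card : ℝ) * (n : ℝ) ^ (d - 1 - k) / D ^ d) ^ γ := by
    apply Real.rpow_le_rpow hF0 _ hγ0
    rw [hF]
    gcongr
  rcases Finset.eq_empty_or_nonempty Ts with hemp | hne
  · -- nothing is admissible
    refine ⟨∅, ?_, ?_⟩
    · simp only [Finset.card_empty, Nat.cast_zero]
      positivity
    · intro G hG hadm
      exfalso
      obtain ⟨τ, hτG, hτM⟩ := exist k (by omega) z c G D hD hG
      have : τ ∈ Ts := Finset.mem_filter.2 ⟨hadm τ hτG hτM, hτM⟩
      rw [hemp] at this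
      exact absurd this (Finset.notMem_empty τ)
  -- points of the flats
  have hx : ∀ τ : Fin (k + 1) → ι, ∃ x : Fin d → ℝ, τ ∈ Ts →
      x ∈ convexHull ℝ (Set.range fun i => c (τ i)) ∧ ∀ j : Fin d, (j : ℕ) < k → x j = z j := by
    intro τ
    by_cases hτ : τ ∈ Ts
    · obtain ⟨x, hx1, hx2⟩ := (Finset.mem_filter.1 hτ).2
      exact ⟨x, fun _ => ⟨hx1, hx2⟩⟩
    · exact ⟨0, fun h => absurd h hτ⟩
  choose x hx using hx
  obtain ⟨m, hm1, hm2⟩ := J_claim_step.median Ts (fun τ => x τ kk) hne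
  set T1 := Ts.filter (fun τ => x τ kk < m) with hT1
  set T2 := Ts.filter (fun τ => m < x τ kk) with hT2
  have hpos : 0 < Ts.card := Finset.card_pos.2 hne
  set z' : Fin d → ℝ := Function.update z kk m with hz'
  have hz'1 : ∀ j : Fin d, j ≠ kk → z' j = z j := fun j hj => Function.update_of_ne hj _ _
  have hz'2 : z' kk = m := Function.update_self _ _ _
  obtain ⟨T', hT'c, hT'⟩ := J_claim_step.ext_card (k + 1) Ts
  obtain ⟨N0, hN0c, hN0⟩ := h ι c M hM z' T' (β * D) (by positivity)
  obtain ⟨N1, hN1c, hN1⟩ := ih T1.card (by omega) T1 rfl ((1 - β) * D) (by positivity)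
  obtain ⟨N2, hN2c, hN2⟩ := ih T2.card (by omega) T2 rfl ((1 - β) * D) (by positivity)
  refine ⟨N0 ∪ N1 ∪ N2, ?_, ?_⟩
  · -- the count
    have e0 : (N0.card : ℝ) ≤ C1 * a ^ γ * F ^ γ := by
      refine hN0c.trans ?_
      rw [mul_assoc]
      apply mul_le_mul_of_nonneg_left _ hC1.le
      rw [← Real.mul_rpow ha0.le hF0]
      apply Real.rpow_le_rpow (by positivity) _ hγ0
      have h1 : (T'.card : ℝ) ≤ ((k : ℝ) + 2) * n * Ts.card := by
        have h2 : (T'.card : ℝ) ≤ (((k + 1 + 1) * n * Ts.card : ℕ) : ℝ) := by exact_mod_cast hT'c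
        push_cast at h2
        linarith
      have h2 : d - 1 - k = (d - 1 - (k + 1)) + 1 := by omega
      have h3 : a * F = ((k : ℝ) + 2) * n * Ts.card * (n : ℝ) ^ (d - 1 - (k + 1)) / (β * D) ^ d := by
        rw [ha, hF, h2, pow_succ, mul_pow]
        field_simp
      rw [h3]
      gcongr
    have e12 : ∀ (Ti : Finset (Fin (k + 1) → ι)), 2 * Ti.card ≤ Ts.card →
        C * ((Ti.card : ℝ) * (n : ℝ) ^ (d - 1 - k) / ((1 - β) * D) ^ d) ^ γ ≤ q / 2 * C * F ^ γ := by
      intro Ti hTi
      have h1 : q / 2 = (1 / (2 * (1 - β) ^ d)) ^ γ := by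
        rw [hqdef]
        ring
      rw [h1, mul_comm (_ ^ γ) C, mul_assoc]
      apply mul_le_mul_of_nonneg_left _ hC0.le
      rw [← Real.mul_rpow (by positivity) hF0]
      apply Real.rpow_le_rpow (by positivity) _ hγ0
      have h2 : (Ti.card : ℝ) ≤ Ts.card / 2 := by
        have h3 : (2:ℝ) * Ti.card ≤ Ts.card := by exact_mod_cast hTi
        linarith
      have h3 : 1 / (2 * (1 - β) ^ d) * F =
          (Ts.card : ℝ) / 2 * (n : ℝ) ^ (d - 1 - k) / ((1 - β) * D) ^ d := by
        rw [hF, mul_pow]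
        field_simp
      rw [h3]
      gcongr
    have e1 := hN1c.trans (e12 T1 hm1)
    have e2 := hN2c.trans (e12 T2 hm2)
    have e3 : ((N0 ∪ N1 ∪ N2).card : ℝ) ≤ N0.card + N1.card + N2.card := by
      have h1 := Finset.card_union_le (N0 ∪ N1) N2
      have h2 := Finset.card_union_le N0 N1
      have h3 : (N0 ∪ N1 ∪ N2).card ≤ N0.card + N1.card + N2.card := by omega
      exact_mod_cast h3
    calc ((N0 ∪ N1 ∪ N2).card : ℝ) ≤ N0.card + N1.card + N2.card := e3
      _ ≤ C1 * a ^ γ * F ^ γ + q / 2 * C * F ^ γ + q / 2 * C * F ^ γ := by linarith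
      _ = (C1 * a ^ γ + q * C) * F ^ γ := by ring
      _ = C * F ^ γ := by rw [hCeq]
      _ ≤ _ := mul_le_mul_of_nonneg_left hFT hC0.le
  · intro G hG hadm
    have hadm' : ∀ τ : Fin (k + 1) → ι, (∀ j, τ j ∈ G) → Meets k z c τ → τ ∈ Ts := fun τ h1 h2 =>
      Finset.mem_filter.2 ⟨hadm τ h1 h2, h2⟩
    by_cases hdeep : Deep (k + 1) z' c G (β * D)
    · obtain ⟨nn, hnn, hb⟩ := hN0 G hdeep (by
        intro σ hσG hσM
        have h1 : Meets k z c σ := by
          obtain ⟨y, hy1, hy2⟩ := hσM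
          refine ⟨y, hy1, fun j hj => ?_⟩
          rw [hy2 j (by omega)]
          apply hz'1
          intro h
          rw [h] at hj
          simp [hkk] at hj
        obtain ⟨j, hj⟩ := drop k (by omega) z c σ h1
        exact hT' σ j (hadm' _ (fun i => hσG _) hj))
      exact ⟨nn, by simp [hnn], hb⟩
    · unfold Deep at hdeep
      push Not at hdeep
      obtain ⟨u, hu0, hu⟩ := hdeep
      have huk : u kk ≠ 0 := by
        intro h0
        have h1 : ∀ j : Fin d, k ≤ (j : ℕ) → u j = 0 := by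
          intro j hj
          rcases hj.lt_or_eq with h2 | h2
          · exact hu0 j h2
          · have : j = kk := Fin.ext h2.symm
            rw [this]
            exact h0
        have h2 := hG u h1
        have h3 : ∀ i, dt u (c i - z') = dt u (c i - z) := by
          intro i
          unfold dt
          refine Finset.sum_congr rfl fun j _ => ?_
          by_cases hj : j = kk
          · rw [hj, h0]
            ring
          · simp only [Pi.sub_apply]
            rw [hz'1 j hj]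
        simp only [h3] at hu
        have : β * D < D := by nlinarith
        linarith
      set G' := G.filter (fun i => dt u (c i - z') < 0) with hG'
      have hG'G : G' ⊆ G := Finset.filter_subset _ _
      have hdeep' : Deep k z c G' ((1 - β) * D) := by
        intro v hv
        have h1 := hG v hv
        have h2 : ({i | i ∈ G ∧ 0 ≤ dt v (c i - z)} : Set ι) ⊆
            {i | i ∈ G' ∧ 0 ≤ dt v (c i - z)} ∪ {i | i ∈ G ∧ 0 ≤ dt u (c i - z')} := by
          rintro i ⟨hi1, hi2⟩
          by_cases h3 : dt u (c i - z') < 0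
          · exact Or.inl ⟨Finset.mem_filter.2 ⟨hi1, h3⟩, hi2⟩
          · exact Or.inr ⟨hi1, not_lt.1 h3⟩
        have h3 := (Set.ncard_le_ncard h2 (Set.toFinite _)).trans (Set.ncard_union_le _ _)
        have h4 : (({i | i ∈ G ∧ 0 ≤ dt v (c i - z)} : Set ι).ncard : ℝ) ≤
            (({i | i ∈ G' ∧ 0 ≤ dt v (c i - z)} : Set ι).ncard : ℝ) +
            (({i | i ∈ G ∧ 0 ≤ dt u (c i - z')} : Set ι).ncard : ℝ) := by exact_mod_cast h3
        linarith
      have hside : ∀ τ : Fin (k + 1) → ι, (∀ j, τ j ∈ G') → Meets k z c τ →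
          τ ∈ Ts ∧ u kk * (x τ kk - m) < 0 := by
        intro τ hτG hτM
        have hτT := hadm' τ (fun j => hG'G (hτG j)) hτM
        refine ⟨hτT, ?_⟩
        obtain ⟨hx1, hx2⟩ := hx τ hτT
        have h1 : Set.range (fun i => c (τ i)) ⊆ {y : Fin d → ℝ | dt u (y - z') < 0} := by
          rintro _ ⟨i, rfl⟩
          exact (Finset.mem_filter.1 (hτG i)).2
        have h2 : dt u (x τ - z') < 0 :=
          convexHull_min h1 (J_claim_step.half_convex u z') hx1
        have h3 : dt u (x τ - z') = u kk * (x τ kk - m) := by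
          unfold dt
          rw [Finset.sum_eq_single kk]
          · simp only [Pi.sub_apply]
            rw [hz'2]
          · intro j _ hj
            simp only [Pi.sub_apply]
            rcases lt_trichotomy (j : ℕ) k with h4 | h4 | h4
            · rw [hx2 j h4, hz'1 j hj]
              ring
            · exact absurd (Fin.ext h4) hj
            · rw [hu0 j h4]
              ring
          · intro h
            exact absurd (Finset.mem_univ _) h
        rw [← h3]
        exact h2
      have hmono : convexHull ℝ (⋃ i ∈ G', box (c i) 1 (M i)) ⊆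
          convexHull ℝ (⋃ i ∈ G, box (c i) 1 (M i)) :=
        convexHull_mono (Set.biUnion_subset_biUnion_left hG'G)
      rcases lt_or_gt_of_ne huk with hneg | hpos'
      · obtain ⟨nn, hnn, hb⟩ := hN2 G' hdeep' (by
          intro τ hτG hτM
          obtain ⟨h1, h2⟩ := hside τ hτG hτM
          refine Finset.mem_filter.2 ⟨h1, ?_⟩
          by_contra hcon
          push Not at hcon
          nlinarith)
        exact ⟨nn, by simp [hnn], hb.trans hmono⟩
      · obtain ⟨nn, hnn, hb⟩ := hN1 G' hdeep' (by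
          intro τ hτG hτM
          obtain ⟨h1, h2⟩ := hside τ hτG hτM
          refine Finset.mem_filter.2 ⟨h1, ?_⟩
          by_contra hcon
          push Not at hcon
          nlinarith)
        exact ⟨nn, by simp [hnn], hb.trans hmono⟩

end Pool.Agent.Helper326_VN
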