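import Mathlib

set_option autoImplicit false

/-!
Volumetric weak epsilon-nets: basic definitions.
-/

namespace Pool.Agent.Helper326_VN

/-- scalar product -/
def dt {d : ℕ} (u x : Fin d → ℝ) : ℝ := ∑ j, u j * x j

/-- the parallelotope `x + κ M [-1,1]^d` -/
def box {d : ℕ} (x : Fin d → ℝ) (κ : ℝ) (M : Matrix (Fin d) (Fin d) ℝ) : Set (Fin d → ℝ) :=
  {p | ∃ t : Fin d → ℝ, (∀ j, |t j| ≤ 1) ∧ p = x + κ • M.mulVec t}

/-- every closed half space with `z` on its boundary and normal vector supported on the first `k`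
coordinates contains at least `D` of the points `c i`, `i ∈ G` -/
def Deep {d : ℕ} {ι : Type} (k : ℕ) (z : Fin d → ℝ) (c : ι → Fin d → ℝ) (G : Finset ι)
    (D : ℝ) : Prop :=
  ∀ u : Fin d → ℝ, (∀ j : Fin d, k ≤ (j : ℕ) → u j = 0) →
    D ≤ (({i | i ∈ G ∧ 0 ≤ dt u (c i - z)} : Set ι).ncard : ℝ)

/-- the convex hull of the points `c (τ i)` meets the flat of codimension `k` through `z` -/
def Meets {d : ℕ} {ι : Type} {n : ℕ} (k : ℕ) (z : Fin d → ℝ) (c : ι → Fin d → ℝ)
    (τ : Fin n → ι) : Prop :=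
  ∃ x ∈ convexHull ℝ (Set.range fun i => c (τ i)), ∀ j : Fin d, (j : ℕ) < k → x j = z j

end Pool.Agent.Helper326_VN
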