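import Pool.Agent.Helper326_VN.Defs

set_option autoImplicit false

/-!
A convex set of volume one contains a large parallelotope.
-/

namespace Pool.Agent.Helper326_VN




namespace J_insc

/-- difference matrix -/
def Xm {d : ℕ} (x0 : Fin d → ℝ) (x : Fin d → Fin d → ℝ) : Matrix (Fin d) (Fin d) ℝ :=
  Matrix.of fun j b => x b j - x0 j

lemma exists_nondeg {d : ℕ} (K : Set (Fin d → ℝ)) (hv : MeasureTheory.volume K ≠ 0) :
    ∃ x0 ∈ K, ∃ x : Fin d → Fin d → ℝ, (∀ b, x b ∈ K) ∧ (Xm x0 x).det ≠ 0 := by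
  classical
  have hne : K.Nonempty := by
    rcases K.eq_empty_or_nonempty with h | h
    · exact absurd (by rw [h]; simp) hv
    · exact h
  obtain ⟨x0, hx0⟩ := hne
  have hspan : affineSpan ℝ K = ⊤ := by
    by_contra hcon
    exact hv (MeasureTheory.measure_mono_null (subset_affineSpan ℝ K)
      (MeasureTheory.Measure.addHaar_affineSubspace MeasureTheory.volume _ hcon))
  have hvec : vectorSpan ℝ K = ⊤ := by
    rw [← direction_affineSpan, hspan, AffineSubspace.direction_top]
  rw [vectorSpan_eq_span_vsub_set_right ℝ hx0] at hvec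
  obtain ⟨b, hbs, hbspan, hbli⟩ := exists_linearIndependent ℝ ((fun y => y -ᵥ x0) '' K)
  rw [hvec] at hbspan
  let B := Module.Basis.mk hbli (by rw [Subtype.range_coe]; exact hbspan.ge)
  have hfin : Fintype b := FiniteDimensional.fintypeBasisIndex B
  have hcard : Fintype.card b = d := by
    have := Module.finrank_eq_card_basis B
    simpa using this.symm
  let e : Fin d ≃ b := (Fintype.equivFinOfCardEq hcard).symm
  have hmem : ∀ i : Fin d, ∃ y ∈ K, y - x0 = (e i : Fin d → ℝ) := by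
    intro i
    obtain ⟨y, hy, hyx⟩ := hbs (e i).2
    exact ⟨y, hy, hyx⟩
  choose x hxK hx using hmem
  refine ⟨x0, hx0, x, hxK, ?_⟩
  have hli : LinearIndependent ℝ (fun i : Fin d => (e i : Fin d → ℝ)) :=
    hbli.comp e e.injective
  have hT : (Xm x0 x).transpose = Matrix.of (fun i : Fin d => (e i : Fin d → ℝ)) := by
    ext i j
    simp only [Xm, Matrix.transpose_apply, Matrix.of_apply]
    exact congrFun (hx i) j
  rw [← Matrix.det_transpose, hT]
  have := Matrix.linearIndependent_rows_iff_isUnit.mp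
    (show LinearIndependent ℝ (Matrix.of (fun i : Fin d => (e i : Fin d → ℝ))).row from hli)
  exact ((Matrix.isUnit_iff_isUnit_det _).mp this).ne_zero

lemma exists_big {d : ℕ} (K : Set (Fin d → ℝ)) (hv : MeasureTheory.volume K = 1) :
    ∃ x0 ∈ K, ∃ x : Fin d → Fin d → ℝ, (∀ b, x b ∈ K) ∧ ((4 : ℝ) ^ d)⁻¹ ≤ |(Xm x0 x).det| := by
  classical
  by_contra hcon
  push Not at hcon
  obtain ⟨a0, ha0, a, ha, hdet⟩ := exists_nondeg K (by rw [hv]; exact one_ne_zero)
  let D : Set ℝ := {r | ∃ x0 ∈ K, ∃ x : Fin d → Fin d → ℝ, (∀ b, x b ∈ K) ∧ r = |(Xm x0 x).det|}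
  have hD : D.Nonempty := ⟨_, a0, ha0, a, ha, rfl⟩
  have hDb : BddAbove D := by
    refine ⟨((4 : ℝ) ^ d)⁻¹, ?_⟩
    rintro r ⟨x0, hx0, x, hx, rfl⟩
    exact (hcon x0 hx0 x hx).le
  have hS0 : 0 < sSup D :=
    lt_of_lt_of_le (abs_pos.mpr hdet) (le_csSup hDb ⟨a0, ha0, a, ha, rfl⟩)
  obtain ⟨r, ⟨x0, hx0, x, hx, rfl⟩, hr⟩ := exists_lt_of_lt_csSup hD (half_lt_self hS0)
  set X := Xm x0 x with hX
  have hdX : X.det ≠ 0 := by
    intro h0
    rw [h0, abs_zero] at hr
    linarith
  have hsub : K ⊆ (fun t : Fin d → ℝ => x0 + X.mulVec t) '' (Set.Icc (fun _ => -2) (fun _ => 2)) := by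
    intro y hy
    refine ⟨(X.det)⁻¹ • X.cramer (y - x0), ?_, ?_⟩
    · have hb : ∀ b, |((X.det)⁻¹ • X.cramer (y - x0)) b| ≤ 2 := by
        intro b
        have hup : X.updateCol b (y - x0) = Xm x0 (Function.update x b y) := by
          ext i j
          by_cases hj : j = b
          · subst hj
            simp [Xm]
          · simp [Xm, hX, hj]
        have hle : |(X.updateCol b (y - x0)).det| ≤ sSup D := by
          rw [hup]
          refine le_csSup hDb ⟨x0, hx0, Function.update x b y, ?_, rfl⟩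
          intro c
          by_cases hc : c = b
          · subst hc; simpa using hy
          · simpa [Function.update_of_ne hc] using hx c
        simp only [Pi.smul_apply, smul_eq_mul, Matrix.cramer_apply, abs_mul, abs_inv]
        rw [inv_mul_le_iff₀ (abs_pos.mpr hdX)]
        linarith
      constructor
      · intro b
        exact (abs_le.mp (hb b)).1
      · intro b
        exact (abs_le.mp (hb b)).2
    · simp only
      rw [Matrix.mulVec_smul, Matrix.mulVec_cramer, smul_smul, inv_mul_cancel₀ hdX, one_smul]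
      abel
  have hvol : MeasureTheory.volume ((fun t : Fin d → ℝ => x0 + X.mulVec t) ''
      (Set.Icc (fun _ => -2) (fun _ => 2))) = ENNReal.ofReal |X.det| * (4 : ENNReal) ^ d := by
    have h1 : (fun t : Fin d → ℝ => x0 + X.mulVec t) '' (Set.Icc (fun _ => -2) (fun _ => 2))
        = (fun z => x0 + z) '' ((Matrix.toLin' X) '' (Set.Icc (fun _ => -2) (fun _ => 2))) := by
      rw [Set.image_image]
      rfl
    rw [h1, Set.image_add_left, MeasureTheory.measure_preimage_add,
      MeasureTheory.Measure.addHaar_image_linearMap, Real.volume_Icc_pi, LinearMap.det_toLin']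
    congr 1
    have h22 : (2 : ℝ) - (-2) = 4 := by norm_num
    simp only [h22, Finset.prod_const, Finset.card_univ, Fintype.card_fin]
    congr 1
    norm_num
  have hlt : MeasureTheory.volume K < 1 := by
    refine lt_of_le_of_lt (MeasureTheory.measure_mono hsub) ?_
    rw [hvol]
    have h4 := hcon x0 hx0 x hx
    have h5 : (4 : ENNReal) ^ d = ENNReal.ofReal ((4 : ℝ) ^ d) := by
      rw [ENNReal.ofReal_pow (by norm_num)]
      congr 1
      norm_num
    rw [h5, ← ENNReal.ofReal_mul (abs_nonneg _), ← ENNReal.ofReal_one]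
    refine (ENNReal.ofReal_lt_ofReal_iff one_pos).mpr ?_
    have h6 : (0 : ℝ) < 4 ^ d := by positivity
    calc |X.det| * 4 ^ d < ((4 : ℝ) ^ d)⁻¹ * 4 ^ d := mul_lt_mul_of_pos_right h4 h6
      _ = 1 := inv_mul_cancel₀ h6.ne'
  rw [hv] at hlt
  exact lt_irrefl _ hlt

end J_insc

/-- TARGET -/
theorem insc (d : ℕ) (hd : 1 ≤ d) (K : Set (Fin d → ℝ)) (hK : Convex ℝ K)
    (hv : MeasureTheory.volume K = 1) : ∃ (c : Fin d → ℝ) (M : Matrix (Fin d) (Fin d) ℝ),
      ((8 * (d : ℝ)) ^ d)⁻¹ ≤ |M.det| ∧ box c 1 M ⊆ K := by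
  obtain ⟨x0, hx0, x, hx, hdet⟩ := J_insc.exists_big K hv
  have hd0 : (0 : ℝ) < d := by exact_mod_cast hd
  have h2d : (0 : ℝ) < 2 * d := by linarith
  refine ⟨x0 + (2 * (d : ℝ))⁻¹ • ∑ b, (x b - x0), (2 * (d : ℝ))⁻¹ • J_insc.Xm x0 x, ?_, ?_⟩
  · rw [Matrix.det_smul, Fintype.card_fin, abs_mul, abs_of_pos (by positivity), inv_pow]
    have h1 : ((8 * (d : ℝ)) ^ d)⁻¹ = ((2 * (d : ℝ)) ^ d)⁻¹ * ((4 : ℝ) ^ d)⁻¹ := by
      rw [← mul_inv, ← mul_pow]
      congr 2
      ring
    rw [h1]
    exact mul_le_mul_of_nonneg_left hdet (by positivity)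
  · rintro p ⟨t, ht, rfl⟩
    have hw : ∀ b, 0 ≤ (2 * (d : ℝ))⁻¹ * (1 + t b) := fun b =>
      mul_nonneg (by positivity) (by linarith [(abs_le.mp (ht b)).1])
    have hsum : ∑ b, (2 * (d : ℝ))⁻¹ * (1 + t b) ≤ 1 := by
      have h3 : ∑ b : Fin d, (2 * (d : ℝ))⁻¹ * (1 + t b) ≤ ∑ _b : Fin d, (2 * (d : ℝ))⁻¹ * 2 := by
        refine Finset.sum_le_sum fun b _ => mul_le_mul_of_nonneg_left ?_ (by positivity)
        linarith [(abs_le.mp (ht b)).2]
      refine h3.trans (le_of_eq ?_)
      rw [Finset.sum_const, Finset.card_univ, Fintype.card_fin, nsmul_eq_mul]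
      field_simp
    have hpt : x0 + (2 * (d : ℝ))⁻¹ • ∑ b, (x b - x0) +
        (1 : ℝ) • ((2 * (d : ℝ))⁻¹ • J_insc.Xm x0 x).mulVec t
        = (1 - ∑ b, (2 * (d : ℝ))⁻¹ * (1 + t b)) • x0
          + ∑ b, ((2 * (d : ℝ))⁻¹ * (1 + t b)) • x b := by
      ext j
      simp only [one_smul, Pi.add_apply, Pi.smul_apply, smul_eq_mul, Finset.sum_apply,
        Pi.sub_apply, Matrix.mulVec, dotProduct, Matrix.smul_apply, J_insc.Xm, Matrix.of_apply]
      rw [sub_mul, one_mul, Finset.sum_mul, Finset.mul_sum]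
      rw [add_assoc, ← Finset.sum_add_distrib, sub_add_eq_add_sub, add_sub_assoc,
        ← Finset.sum_sub_distrib]
      congr 1
      refine Finset.sum_congr rfl fun b _ => ?_
      ring
    rw [hpt]
    have hK' := hK.sum_mem (t := (Finset.univ : Finset (Option (Fin d))))
      (w := fun o => match o with
        | none => 1 - ∑ b, (2 * (d : ℝ))⁻¹ * (1 + t b)
        | some b => (2 * (d : ℝ))⁻¹ * (1 + t b))
      (z := fun o => match o with
        | none => x0
        | some b => x b) ?_ ?_ ?_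
    · simpa [Fintype.sum_option] using hK'
    · intro o _
      cases o with
      | none => simp only; linarith
      | some b => exact hw b
    · rw [Fintype.sum_option]
      simp
    · intro o _
      cases o with
      | none => exact hx0
      | some b => exact hx b

end Pool.Agent.Helper326_VN
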