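import Pool.Agent.Helper326_VN.Defs
import Pool.Agent.Helper326_VN.Claim
import Pool.Agent.Helper326_VN.ClaimBase
import Pool.Agent.Helper326_VN.ClaimStep

set_option autoImplicit false

/-!
Existence of the nets.
-/

namespace Pool.Agent.Helper326_VN



namespace J_net_exists

theorem claim_down (d : ℕ) (hd : 1 ≤ d) (γ : ℝ) (hγ : 1 < γ) :
    ∀ m : ℕ, m ≤ d - 1 → Claim d γ (d - 1 - m) := by
  intro m
  induction m with
  | zero =>
    intro _
    exact claim_base d hd γ hγ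
  | succ m ih =>
    intro hm
    have h := ih (by omega)
    have e : d - 1 - m = (d - 1 - (m + 1)) + 1 := by omega
    rw [e] at h
    exact claim_step d γ hγ (d - 1 - (m + 1)) (by omega) h

theorem claim_zero (d : ℕ) (hd : 1 ≤ d) (γ : ℝ) (hγ : 1 < γ) : Claim d γ 0 := by
  have h := claim_down d hd γ hγ (d - 1) le_rfl
  rwa [Nat.sub_self] at h

end J_net_exists

/-- TARGET -/
theorem net_exists (d : ℕ) (hd : 1 ≤ d) (γ : ℝ) (hγ : 1 < γ) : ∃ C : ℝ, 0 < C ∧
    ∀ (ι : Type) [Fintype ι] [Nonempty ι] (c : ι → Fin d → ℝ)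
      (M : ι → Matrix (Fin d) (Fin d) ℝ), (∀ i, (M i).det ≠ 0) →
      ∀ ε : ℝ, 0 < ε → ε ≤ 1 → ∃ N : Finset ((Fin d → ℝ) × ι),
        (N.card : ℝ) ≤ C * ε ^ (-((d : ℝ) * γ)) ∧
        ∀ G : Finset ι, ε * (Fintype.card ι : ℝ) ≤ G.card →
          ∃ n ∈ N, box n.1 (1 / (2 * (d : ℝ) ^ 3)) (M n.2) ⊆
            convexHull ℝ (⋃ i ∈ G, box (c i) 1 (M i)) := by
  classical
  obtain ⟨C, hC, hcl⟩ := J_net_exists.claim_zero d hd γ hγ
  refine ⟨C, hC, ?_⟩
  intro ι _ _ c M hM ε hε _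
  have hn : (0 : ℝ) < (Fintype.card ι : ℝ) := by exact_mod_cast Fintype.card_pos
  obtain ⟨N, hN1, hN2⟩ := hcl ι c M hM 0 Finset.univ (ε * (Fintype.card ι : ℝ)) (by positivity)
  refine ⟨N, ?_, ?_⟩
  · have hcard : ((Finset.univ : Finset (Fin (0 + 1) → ι)).card : ℝ) = (Fintype.card ι : ℝ) := by
      simp
    rw [hcard] at hN1
    have h1 : (Fintype.card ι : ℝ) * (Fintype.card ι : ℝ) ^ (d - 1 - 0) /
        (ε * (Fintype.card ι : ℝ)) ^ d = (ε ^ d)⁻¹ := by
      have h2 : (Fintype.card ι : ℝ) * (Fintype.card ι : ℝ) ^ (d - 1 - 0) =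
          (Fintype.card ι : ℝ) ^ d := by
        rw [← pow_succ']
        congr 1
        omega
      rw [h2, mul_pow]
      field_simp
    rw [h1] at hN1
    have h3 : ((ε ^ d)⁻¹ : ℝ) ^ γ = ε ^ (-((d : ℝ) * γ)) := by
      rw [← Real.rpow_natCast ε d, ← Real.rpow_neg hε.le, ← Real.rpow_mul hε.le]
      congr 1
      ring
    rw [h3] at hN1
    exact hN1
  · intro G hG
    refine hN2 G ?_ (fun _ _ _ => Finset.mem_univ _)
    intro u hu
    have hset : {i | i ∈ G ∧ 0 ≤ dt u (c i - 0)} = (G : Set ι) := by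
      ext i
      simp only [Set.mem_ofPred_eq, Finset.mem_coe, and_iff_left_iff_imp]
      intro _
      unfold dt
      refine Finset.sum_nonneg ?_
      intro j _
      rw [hu j (Nat.zero_le _), zero_mul]
    rw [hset, Set.ncard_coe_finset]
    exact hG

end Pool.Agent.Helper326_VN
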