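import Pool.Agent.Helper326_VN.Defs

set_option autoImplicit false

/-!
Volume of a parallelotope.
-/

namespace Pool.Agent.Helper326_VN



namespace J_vol_box

theorem box_eq {d : ℕ} (x : Fin d → ℝ) (κ : ℝ) (M : Matrix (Fin d) (Fin d) ℝ) :
    box x κ M = (fun p => x + p) '' (Matrix.toLin' (κ • M) '' Set.Icc (fun _ => -1) (fun _ => 1)) := by
  ext p
  constructor
  · rintro ⟨t, ht, rfl⟩
    refine ⟨κ • M.mulVec t, ⟨t, ⟨fun j => (abs_le.1 (ht j)).1, fun j => (abs_le.1 (ht j)).2⟩, ?_⟩, rfl⟩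
    rw [Matrix.toLin'_apply, Matrix.smul_mulVec]
  · rintro ⟨q, ⟨t, ⟨h1, h2⟩, rfl⟩, rfl⟩
    refine ⟨t, fun j => abs_le.2 ⟨h1 j, h2 j⟩, ?_⟩
    rw [Matrix.toLin'_apply, Matrix.smul_mulVec]

theorem cube_vol (d : ℕ) :
    MeasureTheory.volume (Set.Icc (fun _ => -1) (fun _ => 1) : Set (Fin d → ℝ)) =
      ENNReal.ofReal (2 ^ d) := by
  rw [Real.volume_Icc_pi]
  simp only [sub_neg_eq_add, Finset.prod_const, Finset.card_univ, Fintype.card_fin]
  rw [ENNReal.ofReal_pow (by norm_num)]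
  norm_num

end J_vol_box

/-- TARGET -/
theorem vol_box (d : ℕ) (x : Fin d → ℝ) (κ : ℝ) (hκ : 0 ≤ κ) (M : Matrix (Fin d) (Fin d) ℝ) :
    MeasurableSet (box x κ M) ∧
      MeasureTheory.volume (box x κ M) = ENNReal.ofReal ((2 * κ) ^ d * |M.det|) := by
  have hcomp : IsCompact (box x κ M) := by
    rw [J_vol_box.box_eq]
    refine (IsCompact.image ?_ ?_).image (by fun_prop)
    · exact isCompact_Icc
    · exact LinearMap.continuous_of_finiteDimensional _
  refine ⟨hcomp.measurableSet, ?_⟩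
  rw [J_vol_box.box_eq, Set.image_add_left, MeasureTheory.measure_preimage_add,
    MeasureTheory.Measure.addHaar_image_linearMap, LinearMap.det_toLin', J_vol_box.cube_vol,
    ← ENNReal.ofReal_mul (abs_nonneg _), Matrix.det_smul, Fintype.card_fin, abs_mul, abs_pow,
    abs_of_nonneg hκ]
  congr 1
  rw [mul_pow]
  ring

end Pool.Agent.Helper326_VN
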